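import Pool.Agent.H479.A.Stm
import Pool.Agent.H479.W.Ea
/-!
# Subtask H479-A-EA2 (proved by helper10): few near pairs imply the alternative hypothesis for almost all spacings

PROOF: copy `Pool/Agent/H479/W/Ea.lean` (theorem `ea : S_EA`, lemma `EAx.count`; the file is in the tgz; put your copy in your own namespace) and change the hypothesis on the
pairs: instead of `1/2 * (Xf⁻¹ * ∑∑ (if n ≠ n' ∧ |ord n - ord n'| ≤ 1 then sinc² else 0)) ≤ E` use
`∑∑ (if n ≠ n' ∧ |yy T n - yy T n'| ≤ U then sinc² else 0) ≤ 2 * E * Xf T` (in `count` the bound is only used for the pairs `(j+1, j)` with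
`0 ≤ yy (j+1) - yy j ≤ U`, so the line `h5 : |ord (j+1) - ord j| ≤ 1` is replaced by `|yy T (j+1) - yy T j| ≤ U`). In the main proof use `NEAR δ U (c * η / 80)`
(times 2 as needed) in place of `EE T < c η / 80` and `S_HIGHP`.
-/

open MeasureTheory Filter Topology

namespace H479.A

open H479.P H479.V H479.W
open Pool.Agent.Y744
open Pool.Agent.N804 (SC CT)
open Pool.Agent.N804.PV (DT GV ph aT)
open H177.Lat (kI yy del)
open SG (ord NZ)

namespace EA2x

lemma NZ_NN (T : ℝ) : (NZ T : ℝ) = (H370.NN riemannZeta 0 T : ℝ) := by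
  have h1 : NZ T = H370.NN riemannZeta 0 T := by
    unfold SG.NZ H370.NN
    have h2 : {s : ℂ | riemannZeta s = 0 ∧ 0 < s.re ∧ s.re < 1 ∧ 0 < s.im ∧ s.im ≤ T} =
        H370.zset riemannZeta 0 T := by
      ext s
      simp only [H370.zset, Set.mem_ofPred_eq]
      tauto
    rw [h2]
    rfl
  rw [h1]

/-- lower bound for `sinc²` away from the positive half-integers -/
lemma sinc_low (ε U : ℝ) (hε : 0 < ε) : ∃ c : ℝ, 0 < c ∧ ∀ x : ℝ, 0 ≤ x → x ≤ U →
    (∀ k : ℕ, 1 ≤ k → ε ≤ |x - k / 2|) → c ≤ Real.sinc (2 * Real.pi * x) ^ 2 := by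
  have hpi := Real.pi_pos
  set K : Set ℝ := Set.Icc 0 U ∩ ⋂ k : ℕ, {x : ℝ | 1 ≤ k → ε ≤ |x - k / 2|} with hK
  have hKc : IsCompact K := by
    apply isCompact_Icc.inter_right
    apply isClosed_iInter
    intro k
    by_cases hk : 1 ≤ k
    · have h1 : {x : ℝ | 1 ≤ k → ε ≤ |x - k / 2|} = {x : ℝ | ε ≤ |x - k / 2|} := by
        ext x
        simp [hk]
      rw [h1]
      exact isClosed_le continuous_const (by fun_prop)
    · have h1 : {x : ℝ | 1 ≤ k → ε ≤ |x - k / 2|} = Set.univ := by
        ext x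
        simp [hk]
      rw [h1]
      exact isClosed_univ
  have hmem : ∀ x : ℝ, x ∈ K ↔ (0 ≤ x ∧ x ≤ U) ∧ ∀ k : ℕ, 1 ≤ k → ε ≤ |x - k / 2| := by
    intro x
    rw [hK, Set.mem_inter_iff, Set.mem_Icc, Set.mem_iInter]
    rfl
  rcases K.eq_empty_or_nonempty with h0 | h0
  · refine ⟨1, one_pos, fun x h1 h2 h3 => ?_⟩
    have h4 : x ∈ K := (hmem x).2 ⟨⟨h1, h2⟩, h3⟩
    rw [h0] at h4
    exact absurd h4 (Set.notMem_empty x)
  · have hcont : Continuous fun x : ℝ => Real.sinc (2 * Real.pi * x) ^ 2 :=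
      (Real.continuous_sinc.comp (by fun_prop : Continuous fun x : ℝ => 2 * Real.pi * x)).pow 2
    obtain ⟨x0, hx0, hmin⟩ := hKc.exists_isMinOn h0 hcont.continuousOn
    refine ⟨Real.sinc (2 * Real.pi * x0) ^ 2, ?_, fun x h1 h2 h3 =>
      hmin ((hmem x).2 ⟨⟨h1, h2⟩, h3⟩)⟩
    have h5 := (hmem x0).1 hx0
    obtain ⟨⟨h6, h7⟩, h8⟩ := h5
    have h9 : Real.sinc (2 * Real.pi * x0) ≠ 0 := by
      rcases h6.lt_or_eq with h10 | h10
      · have h11 : 2 * Real.pi * x0 ≠ 0 := by positivity
        rw [Real.sinc_of_ne_zero h11]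
        intro h12
        rw [div_eq_zero_iff] at h12
        rcases h12 with h12 | h12
        · rw [Real.sin_eq_zero_iff] at h12
          obtain ⟨n, hn⟩ := h12
          have h13 : (n : ℝ) = 2 * x0 := by
            have h14 : (n : ℝ) * Real.pi = (2 * x0) * Real.pi := by rw [hn]; ring
            exact mul_right_cancel₀ hpi.ne' h14
          have h15 : 0 < n := by
            have : (0 : ℝ) < n := by rw [h13]; linarith
            exact_mod_cast this
          obtain ⟨m, rfl⟩ := Int.eq_ofNat_of_zero_le h15.le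
          have h16 : 1 ≤ m := by
            have : 0 < m := by exact_mod_cast h15
            omega
          have h17 := h8 m h16
          rw [Int.cast_natCast] at h13
          rw [h13] at h17
          have h18 : x0 - 2 * x0 / 2 = 0 := by ring
          rw [h18, abs_zero] at h17
          linarith
        · exact h11 h12
      · rw [← h10]
        simp
    positivity

/-- the number of bad indices up to `NZ T` -/
lemma count (δ ε U c E : ℝ) (T : ℝ) (hδ : 0 < δ) (hδ1 : δ < 1) (hε : 0 < ε) (hU : 0 < U)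
    (hc : 0 < c) (hT1 : 1 < T)
    (hsinc : ∀ x : ℝ, 0 ≤ x → x ≤ U →
      (∀ k : ℕ, 1 ≤ k → ε / 2 ≤ |x - k / 2|) → c ≤ Real.sinc (2 * Real.pi * x) ^ 2)
    (hL1 : U * (1 - Real.log δ) ≤ ε / 2 * Real.log T)
    (hlow : (NZ (δ * T) : ℝ) ≤ 2 * δ * Xf T)
    (hE : ∑ n ∈ Finset.Ioc (NZ (δ * T)) (NZ T), ∑ n' ∈ Finset.Ioc (NZ (δ * T)) (NZ T),
      (if n ≠ n' ∧ |yy T n - yy T n'| ≤ U then Real.sinc (2 * Real.pi * (yy T n - yy T n')) ^ 2
        else 0) ≤ 2 * E * Xf T) (N : ℕ) (hN : N ≤ NZ T) :
    ({j : ℕ | 1 ≤ j ∧ j ≤ N ∧ ∀ k : ℕ, 1 ≤ k → ε ≤ |del j - k / 2|}.ncard : ℝ) ≤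
      2 * δ * Xf T + 1 + Xf T / U + 2 * E / c * Xf T := by
  classical
  have hpi := Real.pi_pos
  have hTpos : 0 < T := by linarith
  have hLpos : 0 < Real.log T := Real.log_pos hT1
  have hX : 0 < Xf T := by unfold Xf; positivity
  set a := NZ (δ * T) with ha
  set b := NZ T with hb
  set y := yy T with hy
  have hgapeq : ∀ j, y (j + 1) - y j = (ord (j + 1) - ord j) * Real.log T / (2 * Real.pi) := by
    intro j
    simp only [hy, yy]
    ring
  have hgap0 : ∀ j, 1 ≤ j → 0 ≤ y (j + 1) - y j := by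
    intro j hj
    have h2 := SG.ord_mono hj (Nat.le_succ j)
    have h2' : ord j ≤ ord (j + 1) := h2
    rw [hgapeq]
    have h3 : 0 ≤ ord (j + 1) - ord j := by linarith
    positivity
  set Bg := (Finset.Ico (a + 1) b).filter (fun j => ¬ (y (j + 1) - y j ≤ U)) with hBg
  set Md := (Finset.Ico (a + 1) b).filter (fun j => y (j + 1) - y j ≤ U ∧
    ∀ k : ℕ, 1 ≤ k → ε / 2 ≤ |y (j + 1) - y j - k / 2|) with hMd
  set S : Set ℕ := {j : ℕ | 1 ≤ j ∧ j ≤ N ∧ ∀ k : ℕ, 1 ≤ k → ε ≤ |del j - k / 2|} with hS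
  -- big gaps
  have hBgc : (Bg.card : ℝ) ≤ Xf T / U := by
    by_cases hab : a + 1 ≤ b
    · rw [le_div_iff₀ hU]
      have h1 : ∑ j ∈ Bg, U ≤ ∑ j ∈ Bg, (y (j + 1) - y j) := by
        refine Finset.sum_le_sum fun j hj => ?_
        have := (Finset.mem_filter.1 hj).2
        push Not at this
        exact this.le
      rw [Finset.sum_const, nsmul_eq_mul] at h1
      refine h1.trans ?_
      have h2 : ∑ j ∈ Bg, (y (j + 1) - y j) ≤ ∑ j ∈ Finset.Ico (a + 1) b, (y (j + 1) - y j) := by
        apply Finset.sum_le_sum_of_subset_of_nonneg (Finset.filter_subset _ _)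
        intro j hj _
        rw [Finset.mem_Ico] at hj
        exact hgap0 j (by omega)
      rw [H177.Lat.sum_gaps a b y hab] at h2
      refine h2.trans ?_
      have h3 : ord b ≤ T := (SG.ord_le_iff (by omega) _).mpr le_rfl
      have h4 : 0 < ord (a + 1) := SG.ord_pos (by omega)
      have h5 : y b - y (a + 1) = (ord b - ord (a + 1)) * Real.log T / (2 * Real.pi) := by
        simp only [hy, yy]
        ring
      rw [h5]
      unfold Xf
      apply div_le_div_of_nonneg_right _ (by positivity)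
      apply mul_le_mul_of_nonneg_right _ hLpos.le
      linarith
    · have h1 : Bg = ∅ := by
        rw [hBg, Finset.filter_eq_empty_iff]
        intro j hj
        rw [Finset.mem_Ico] at hj
        omega
      rw [h1, Finset.card_empty, Nat.cast_zero]
      positivity
  -- middle gaps
  have hMdc : (Md.card : ℝ) ≤ 2 * E / c * Xf T := by
    set F : ℕ → ℕ → ℝ := fun n n' => (if n ≠ n' ∧ |y n - y n'| ≤ U then
      Real.sinc (2 * Real.pi * (y n - y n')) ^ 2 else 0) with hF
    have hF0 : ∀ n n', 0 ≤ F n n' := by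
      intro n n'
      simp only [hF]
      split_ifs
      · positivity
      · exact le_rfl
    have h1 : ∑ j ∈ Md, c ≤ ∑ j ∈ Md, F (j + 1) j := by
      refine Finset.sum_le_sum fun j hj => ?_
      obtain ⟨h2, h3, h4⟩ := Finset.mem_filter.1 hj
      rw [Finset.mem_Ico] at h2
      have h5 : |y (j + 1) - y j| ≤ U := by
        rw [abs_of_nonneg (hgap0 j (by omega))]
        exact h3
      simp only [hF]
      rw [if_pos ⟨by omega, h5⟩]
      exact hsinc _ (hgap0 j (by omega)) h3 h4
    have h2 : ∑ j ∈ Md, F (j + 1) j ≤ ∑ n ∈ Finset.Ioc a b, ∑ n' ∈ Finset.Ioc a b, F n n' := by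
      rw [Finset.sum_comm]
      calc ∑ j ∈ Md, F (j + 1) j ≤ ∑ j ∈ Md, ∑ n ∈ Finset.Ioc a b, F n j := by
            refine Finset.sum_le_sum fun j hj => ?_
            obtain ⟨h3, -⟩ := Finset.mem_filter.1 hj
            rw [Finset.mem_Ico] at h3
            exact Finset.single_le_sum (f := fun n => F n j) (fun n _ => hF0 n j)
              (Finset.mem_Ioc.2 ⟨by omega, by omega⟩)
        _ ≤ _ := by
            apply Finset.sum_le_sum_of_subset_of_nonneg
            · intro j hj
              obtain ⟨h3, -⟩ := Finset.mem_filter.1 hj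
              rw [Finset.mem_Ico] at h3
              exact Finset.mem_Ioc.2 ⟨by omega, by omega⟩
            · intro j _ _
              exact Finset.sum_nonneg fun n _ => hF0 n j
    rw [Finset.sum_const, nsmul_eq_mul] at h1
    have h3 : ∑ n ∈ Finset.Ioc a b, ∑ n' ∈ Finset.Ioc a b, F n n' ≤ 2 * E * Xf T := hE
    have h4 : (Md.card : ℝ) * c ≤ 2 * E * Xf T := h1.trans (h2.trans h3)
    have h5 : 2 * E / c * Xf T = 2 * E * Xf T / c := by ring
    rw [h5, le_div_iff₀ hc]
    exact h4
  -- the covering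
  have hsub : S ⊆ ((Finset.Icc 1 a ∪ {b} ∪ Bg ∪ Md : Finset ℕ) : Set ℕ) := by
    rintro j ⟨hj1, hj2, hj3⟩
    rw [Finset.mem_coe, Finset.mem_union, Finset.mem_union, Finset.mem_union, Finset.mem_Icc,
      Finset.mem_singleton]
    by_cases hja : j ≤ a
    · exact Or.inl (Or.inl (Or.inl ⟨hj1, hja⟩))
    by_cases hjb : j = b
    · exact Or.inl (Or.inl (Or.inr hjb))
    have hjI : j ∈ Finset.Ico (a + 1) b := Finset.mem_Ico.2 ⟨by omega, by omega⟩
    by_cases hjU : y (j + 1) - y j ≤ U
    · right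
      refine Finset.mem_filter.2 ⟨hjI, hjU, fun k hk => ?_⟩
      rw [Finset.mem_Ico] at hjI
      have q1 : δ * T < ord j := by
        by_contra hcon2
        push Not at hcon2
        have := (SG.ord_le_iff hj1 (δ * T)).mp hcon2
        omega
      have q2 : ord (j + 1) ≤ T := (SG.ord_le_iff (by omega) _).mpr (by omega)
      have q3 : ord j ≤ ord (j + 1) := SG.ord_mono hj1 (Nat.le_succ j)
      have hδT : 0 < δ * T := by positivity
      have hx0 : 0 < ord j := by linarith
      set u := y (j + 1) - y j with hu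
      have hu0 : 0 ≤ u := hgap0 j hj1
      have hu1 : u = (ord (j + 1) - ord j) * Real.log T / (2 * Real.pi) := hgapeq j
      have hd0 : 0 ≤ ord (j + 1) - ord j := by linarith
      have hD0 : Real.log δ < 0 := Real.log_neg hδ hδ1
      -- comparison
      have hlogx : Real.log T + Real.log δ ≤ Real.log (ord j) := by
        have h1 : Real.log (δ * T) ≤ Real.log (ord j) := Real.log_le_log hδT q1.le
        rw [Real.log_mul hδ.ne' hTpos.ne'] at h1
        linarith
      have hlogy : Real.log (ord (j + 1)) ≤ Real.log T := Real.log_le_log (by linarith) q2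
      have hlw : u + u * Real.log δ / Real.log T ≤ del j := by
        have h5 : (ord (j + 1) - ord j) * (Real.log T + Real.log δ) / (2 * Real.pi) ≤ del j := by
          unfold H177.Lat.del
          apply div_le_div_of_nonneg_right _ (by positivity)
          refine le_trans ?_ (H177.Lat.xlog_low hx0 q3)
          exact mul_le_mul_of_nonneg_left (by linarith) hd0
        have h6 : (ord (j + 1) - ord j) * (Real.log T + Real.log δ) / (2 * Real.pi) =
            u + u * Real.log δ / Real.log T := by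
          rw [hu1]
          field_simp
        linarith
      have hup : del j ≤ u + u / Real.log T := by
        have h5 : del j ≤ (ord (j + 1) - ord j) * (Real.log T + 1) / (2 * Real.pi) := by
          unfold H177.Lat.del
          apply div_le_div_of_nonneg_right _ (by positivity)
          exact (H370.A3.xlog_aux hx0 q3).trans (mul_le_mul_of_nonneg_left (by linarith) hd0)
        have h6 : (ord (j + 1) - ord j) * (Real.log T + 1) / (2 * Real.pi) =
            u + u / Real.log T := by
          rw [hu1]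
          field_simp
        linarith
      have hsm : u * (1 - Real.log δ) / Real.log T ≤ ε / 2 := by
        rw [div_le_iff₀ hLpos]
        refine le_trans ?_ hL1
        exact mul_le_mul_of_nonneg_right hjU (by linarith)
      have he : u * (1 - Real.log δ) / Real.log T = u / Real.log T - u * Real.log δ / Real.log T := by
        ring
      have hp1 : 0 ≤ u / Real.log T := by positivity
      have hp2 : u * Real.log δ / Real.log T ≤ 0 :=
        div_nonpos_of_nonpos_of_nonneg (mul_nonpos_of_nonneg_of_nonpos hu0 hD0.le) hLpos.le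
      have h7 : |del j - u| ≤ ε / 2 := by
        rw [abs_le]
        constructor
        · linarith
        · linarith
      have h8 := hj3 k hk
      have h9 : |del j - k / 2| ≤ |del j - u| + |u - k / 2| := abs_sub_le _ _ _
      linarith
    · exact Or.inl (Or.inr (Finset.mem_filter.2 ⟨hjI, hjU⟩))
  have h1 := Set.ncard_le_ncard hsub (Finset.finite_toSet _)
  rw [Set.ncard_coe_finset] at h1
  have h2 : (Finset.Icc 1 a ∪ {b} ∪ Bg ∪ Md : Finset ℕ).card ≤ a + 1 + Bg.card + Md.card := by
    refine (Finset.card_union_le _ _).trans (Nat.add_le_add_right ?_ _)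
    refine (Finset.card_union_le _ _).trans (Nat.add_le_add_right ?_ _)
    refine (Finset.card_union_le _ _).trans ?_
    rw [Nat.card_Icc, Finset.card_singleton]
    omega
  have h3 : (S.ncard : ℝ) ≤ a + 1 + Bg.card + Md.card := by exact_mod_cast h1.trans h2
  linarith

end EA2x

open EA2x in
theorem ea2 : S_EA2 := by
  intro RH hNEAR ε hε
  have hpi := Real.pi_pos
  rw [Metric.tendsto_atTop]
  intro η hη
  -- parameters
  set δ : ℝ := min (1 / 2) (η / 80) with hδd
  have hδ0 : 0 < δ := by positivity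
  have hδ1 : δ < 1 := by
    have : δ ≤ 1 / 2 := min_le_left _ _
    linarith
  have hδη : δ ≤ η / 80 := min_le_right _ _
  set U : ℝ := 80 / η with hUd
  have hU : 0 < U := by positivity
  obtain ⟨c, hc, hsinc⟩ := sinc_low (ε / 2) U (by positivity)
  obtain ⟨T0, hT0, hNN⟩ := Pool.Agent.W54.TCF.NT_asymp' (1 / 2) (by norm_num)
  have evL : Tendsto Real.log atTop atTop := Real.tendsto_log_atTop
  have ev : ∀ᶠ T : ℝ in atTop, (U * (1 - Real.log δ) ≤ ε / 2 * Real.log T) ∧
      (T0 ≤ δ * T) ∧ (2 * T0 + 10 ≤ T) ∧ (80 / η ≤ Xf T) ∧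
      ∑ n ∈ Finset.Ioc (NZ (δ * T)) (NZ T), ∑ n' ∈ Finset.Ioc (NZ (δ * T)) (NZ T),
        (if n ≠ n' ∧ |yy T n - yy T n'| ≤ U then Real.sinc (2 * Real.pi * (yy T n - yy T n')) ^ 2
          else 0) ≤ 2 * (c * η / 80) * Xf T := by
    have e1 : ∀ᶠ T : ℝ in atTop, U * (1 - Real.log δ) ≤ ε / 2 * Real.log T :=
      (evL.const_mul_atTop (by positivity : 0 < ε / 2)).eventually_ge_atTop _
    have e3 : ∀ᶠ T : ℝ in atTop, T0 ≤ δ * T :=
      (tendsto_id.const_mul_atTop hδ0).eventually_ge_atTop _
    have e4 : ∀ᶠ T : ℝ in atTop, 2 * T0 + 10 ≤ T := eventually_ge_atTop _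
    have e5 : ∀ᶠ T : ℝ in atTop, 80 / η ≤ Xf T := by
      filter_upwards [eventually_ge_atTop (1 : ℝ), eventually_ge_atTop (2 * Real.pi * (80 / η)),
        evL.eventually_ge_atTop 1] with T f1 f2 f3
      unfold Xf
      rw [le_div_iff₀ (by positivity)]
      have f4 : T * 1 ≤ T * Real.log T := mul_le_mul_of_nonneg_left f3 (by linarith)
      linarith
    have e7 := hNEAR δ U (2 * (c * η / 80)) hδ0 hδ1 hU (by positivity)
    filter_upwards [e1, e3, e4, e5, e7] with T f1 f3 f4 f5 f7
    exact ⟨f1, f3, f4, f5, f7⟩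
  have evN := SG.ord_tendsto.eventually ev
  obtain ⟨N0, hN0⟩ := (evN.and (eventually_ge_atTop 1)).exists_forall_of_atTop
  refine ⟨N0, fun N hN => ?_⟩
  obtain ⟨⟨f1, f3, f4, f5, f7⟩, hN1⟩ := hN0 N hN
  set T := ord N with hT
  have hT1 : 1 < T := by linarith
  have hTpos : 0 < T := by linarith
  have hLpos : 0 < Real.log T := Real.log_pos hT1
  have hX : 0 < Xf T := by unfold Xf; positivity
  have hNle : N ≤ NZ T := SG.le_NZ_ord hN1
  have hlow : (NZ (δ * T) : ℝ) ≤ 2 * δ * Xf T := by
    have h1 := (hNN (δ * T) f3).2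
    rw [← NZ_NN] at h1
    have h2 : Real.log (δ * T) ≤ Real.log T :=
      Real.log_le_log (by positivity) (by nlinarith)
    have h3 : (1 + 1 / 2) * (δ * T / (2 * Real.pi) * Real.log (δ * T)) ≤
        (1 + 1 / 2) * (δ * T / (2 * Real.pi) * Real.log T) := by
      apply mul_le_mul_of_nonneg_left _ (by norm_num)
      exact mul_le_mul_of_nonneg_left h2 (by positivity)
    have h4 : (1 + 1 / 2) * (δ * T / (2 * Real.pi) * Real.log T) = 3 / 2 * (δ * Xf T) := by
      unfold Xf
      ring
    have h5 : 0 < δ * Xf T := by positivity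
    linarith
  have hNlow : Xf T ≤ 8 * N := by
    have h1 := (hNN (T / 2) (by linarith)).1
    rw [← NZ_NN] at h1
    have h2 : NZ (T / 2) ≤ N := by
      by_contra hcon
      push Not at hcon
      have h3 := (SG.ord_le_iff hN1 (T / 2)).mpr hcon.le
      linarith
    have h3 : (NZ (T / 2) : ℝ) ≤ N := by exact_mod_cast h2
    have h4 : 1 / 2 * Real.log T ≤ Real.log (T / 2) := by
      have h5 : Real.log T ≤ Real.log ((T / 2) ^ 2) :=
        Real.log_le_log hTpos (by nlinarith)
      rw [Real.log_pow] at h5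
      push_cast at h5
      linarith
    have h5 : (1 - 1 / 2) * (T / 2 / (2 * Real.pi) * (1 / 2 * Real.log T)) ≤
        (1 - 1 / 2) * (T / 2 / (2 * Real.pi) * Real.log (T / 2)) := by
      apply mul_le_mul_of_nonneg_left _ (by norm_num)
      exact mul_le_mul_of_nonneg_left h4 (by positivity)
    have h6 : (1 - 1 / 2) * (T / 2 / (2 * Real.pi) * (1 / 2 * Real.log T)) = Xf T / 8 := by
      unfold Xf
      ring
    linarith
  have hcount := count δ ε U c (c * η / 80) T hδ0 hδ1 hε hU hc hT1 hsinc f1 hlow f7 N hNle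
  have hNpos : (0 : ℝ) < N := by exact_mod_cast hN1
  rw [Real.dist_eq, sub_zero, abs_of_nonneg (by positivity), div_lt_iff₀ hNpos]
  refine lt_of_le_of_lt hcount ?_
  have g1 : 2 * δ * Xf T ≤ η / 40 * Xf T := by
    apply mul_le_mul_of_nonneg_right _ hX.le
    linarith
  have g2 : 1 ≤ η / 80 * Xf T := by
    rw [div_le_iff₀ hη] at f5
    linarith
  have g3 : Xf T / U = η / 80 * Xf T := by
    rw [hUd]
    field_simp
  have g4 : 2 * (c * η / 80) / c * Xf T ≤ η / 40 * Xf T := by
    apply mul_le_mul_of_nonneg_right _ hX.le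
    rw [div_le_iff₀ hc]
    linarith
  have g5 : η * Xf T ≤ η * (8 * N) := mul_le_mul_of_nonneg_left hNlow hη.le
  have g6 : 0 < η * Xf T := by positivity
  linarith

end H479.A
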