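import Pool.Agent.H479.A.Stm

/-!
# Subtask H479-A-FTB (proved by helper62): the variance of the primes is bounded in the mean
(proved by helper62)
-/

open MeasureTheory Filter Topology

namespace H479.A

open H479.P H479.V H479.W
open Pool.Agent.Y744
open Pool.Agent.N804 (SC CT)
open Pool.Agent.N804.PV (DT GV ph aT)
open H177.Lat (kI yy del)
open SG (ord NZ)

namespace FTBaux

/-- the pair functional is bounded above -/
lemma RP_bdd (RH : RiemannHypothesis) {w : ℝ → ℝ} (hw : EW w) :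
    ∃ K : ℝ, 0 ≤ K ∧ ∀ᶠ T in atTop, RP w T ≤ K := by
  obtain ⟨D, hD, hd⟩ := ew_decay hw
  obtain ⟨B, T0, hB, hT0, hb⟩ := Bbound RH hD
  obtain ⟨C, hC, hab⟩ := Pool.Agent.N482.PV.abelb
  refine ⟨C * B * (1 + 1), by positivity, ?_⟩
  filter_upwards [eventually_ge_atTop T0] with T hT
  have hT20 : 20 ≤ T := hT0.trans hT
  have hL : 0 < Real.log T := Real.log_pos (by linarith)
  have h1 := (hab (ℂ × ℂ) (AP T) (pp T) (cw (fun y => D / (1 + y ^ 2)) T) B hB
    (fun q hq => ⟨pp_pos (by linarith) hq, by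
      unfold cw
      have hm : 0 ≤ mz q.1 * mz q.2 :=
        mul_nonneg (Pool.Agent.Y744.mz_nonneg _) (Pool.Agent.Y744.mz_nonneg _)
      have h2 : 0 ≤ 2 / (T * Real.log T) := by positivity
      refine mul_nonneg hm (mul_nonneg h2 ?_)
      positivity⟩)
    (fun v hv => hb T hT v hv) 1 one_pos).1
  rw [RP_eq]
  refine le_trans (Finset.sum_le_sum fun q hq => ?_) h1
  rw [div_one]
  have hph : 0 ≤ ph (pp T q) := sq_nonneg _
  refine mul_le_mul_of_nonneg_left ?_ hph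
  unfold cw
  have hm : 0 ≤ mz q.1 * mz q.2 := mul_nonneg (Pool.Agent.Y744.mz_nonneg _) (Pool.Agent.Y744.mz_nonneg _)
  have h2 : 0 ≤ 2 / (T * Real.log T) := by positivity
  refine mul_le_mul_of_nonneg_left (mul_le_mul_of_nonneg_left ?_ h2) hm
  refine (le_abs_self _).trans ((hd _).trans ?_)
  apply div_le_div_of_nonneg_left hD (by positivity)
  have := sq_nonneg ((q.1.im - q.2.im) * Real.log T / (2 * Real.pi))
  nlinarith

/-- the splitting, from above -/
lemma split_up (RH : RiemannHypothesis) (hE : S_EFL) {w : ℝ → ℝ} (hw : EW w) {η : ℝ}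
    (hη : 0 < η) (hη4 : η ≤ 1 / 4) {χ : ℝ → ℝ} (hχ : TK (1 - η / 2) χ)
    (hχ1 : ∀ x, |x| ≤ 1 - η → χ x = 1) {ε : ℝ} (hε : 0 < ε) :
    ∀ᶠ T in atTop, (∫ α, rtl (fun x => w x * (1 - χ x)) α * ft T α) ≤
      RP w T - Lam (fun x => w x * χ x) + ε := by
  have hχsm : ContDiff ℝ (⊤ : ℕ∞) χ := hχ.smooth
  have h0 : EW (fun x => w x * χ x) := by
    refine ⟨⟨hw.sc.sm.mul hχsm, hw.sc.cs.mul_right⟩, fun x => ?_⟩
    show w (-x) * χ (-x) = w x * χ x
    rw [hw.even, hχ.even]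
  have h1 : EW (fun x => w x * (1 - χ x)) := by
    refine ⟨⟨hw.sc.sm.mul (contDiff_const.sub hχsm), hw.sc.cs.mul_right⟩, fun x => ?_⟩
    show w (-x) * (1 - χ (-x)) = w x * (1 - χ x)
    rw [hw.even, hχ.even]
  have h10 : ∀ x, |x| ≤ 1 - η → w x * (1 - χ x) = 0 := by
    intro x hx
    rw [hχ1 x hx]
    ring
  have hm := mont RH (κ := 1 - η / 2) (by linarith) (by linarith) h0 (fun x hx => by
    show w x * χ x = 0
    rw [hχ.supp x hx, mul_zero])
  have ha := ab RH _ _ h0 hm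
  have he := hE RH _ (rtl_sc h1.sc (by linarith : 0 < 1 - η) h10) (fun x hx =>
    rtl_zero h10 (by linarith))
  have hCT : ∀ y, CT w y = CT (fun x => w x * χ x) y +
      CT (rtl (fun x => w x * (1 - χ x))) y := by
    intro y
    rw [rtl_CT h1 (by linarith : 0 < 1 - η) h10, ← CT_addl h0.sc h1.sc]
    congr 1
    funext x
    ring
  have ha2 := ha.eventually_const_lt (show Lam (fun x => w x * χ x) - ε / 2 <
    Lam (fun x => w x * χ x) by linarith)
  have he2 := he.eventually_lt_const (show (0 : ℝ) < ε / 2 by linarith)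
  filter_upwards [ha2, he2] with T hT1 hT2
  rw [RP_addl hCT]
  linarith

/-- the lower bound for the right half -/
lemma lower {w : ℝ → ℝ} (hw : EW w) (hw0 : ∀ x, 0 ≤ w x)
    (hs : ∀ x, 4 + 1 / 8 < |x| → w x = 0)
    (happ : ∀ x, |w x - max 0 (1 - |x| / 4)| ≤ 1 / 8) {η : ℝ} (hη : 0 < η) (hη4 : η ≤ 1 / 4)
    {χ : ℝ → ℝ} (hχ : TK (1 - η / 2) χ) (hχ1 : ∀ x, |x| ≤ 1 - η → χ x = 1)
    (hχle : ∀ x, χ x ≤ 1) {T : ℝ} (hT : 1 ≤ T) :
    1 / 4 * ∫ α in (1 : ℝ)..3, ft T α ≤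
      ∫ α, rtl (fun x => w x * (1 - χ x)) α * ft T α := by
  have hχsm : ContDiff ℝ (⊤ : ℕ∞) χ := hχ.smooth
  have h1 : EW (fun x => w x * (1 - χ x)) := by
    refine ⟨⟨hw.sc.sm.mul (contDiff_const.sub hχsm), hw.sc.cs.mul_right⟩, fun x => ?_⟩
    show w (-x) * (1 - χ (-x)) = w x * (1 - χ x)
    rw [hw.even, hχ.even]
  have h10 : ∀ x, |x| ≤ 1 - η → w x * (1 - χ x) = 0 := by
    intro x hx
    rw [hχ1 x hx]
    ring
  obtain ⟨r, hr⟩ : ∃ r : ℝ → ℝ, r = rtl (fun x => w x * (1 - χ x)) := ⟨_, rfl⟩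
  rw [← hr]
  have hrc : Continuous r := by
    rw [hr]
    exact (rtl_sc h1.sc (by linarith : 0 < 1 - η) h10).sm.continuous
  have hr0 : ∀ x, x ≤ 1 - η → r x = 0 := fun x hx => by
    rw [hr]
    exact rtl_zero h10 hx
  have hrs : ∀ x, 4 + 1 / 8 < x → r x = 0 := fun x hx => by
    rw [hr, rtl_pos (by linarith)]
    rw [hs x (by rw [abs_of_pos (by linarith)]; exact hx)]
    ring
  have hrnn : ∀ x, 0 ≤ r x := fun x => by
    rcases lt_or_ge 0 x with hx | hx
    · rw [hr, rtl_pos hx]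
      have h2 := hχle x
      have h3 := hw0 x
      have h4 : 0 ≤ w x * (1 - χ x) := mul_nonneg h3 (by linarith)
      linarith
    · rw [hr, rtl_neg hx]
  have hrge : ∀ x, 1 ≤ x → x ≤ 3 → 1 / 4 ≤ r x := fun x hx hx3 => by
    rw [hr, rtl_pos (by linarith)]
    have h2 : χ x = 0 := hχ.supp x (by rw [abs_of_pos (by linarith)]; linarith)
    rw [h2]
    have h3 := (abs_le.1 (happ x)).1
    rw [abs_of_pos (by linarith : (0 : ℝ) < x)] at h3
    have h4 := le_max_right 0 (1 - x / 4)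
    linarith
  have hft := fun α => low_ft_nonneg hT α
  -- the integral over the whole line
  have hw1 : ∫ α, r α * ft T α = ∫ α in (1 - η)..(4 + 1 / 8), r α * ft T α := by
    rw [intervalIntegral.integral_of_le (by linarith)]
    symm
    refine setIntegral_eq_integral_of_forall_compl_eq_zero fun x hx => ?_
    rw [Set.mem_Ioc, not_and_or, not_lt, not_le] at hx
    rcases hx with hx | hx
    · rw [hr0 x hx, zero_mul]
    · rw [hrs x hx, zero_mul]
  have i1 := low_ft_mul hT (show 1 - η ≤ 1 by linarith) hrc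
  have i2 := low_ft_mul hT (show (1 : ℝ) ≤ 3 by norm_num) hrc
  have i3 := low_ft_mul hT (show (3 : ℝ) ≤ 4 + 1 / 8 by norm_num) hrc
  rw [hw1, ← intervalIntegral.integral_add_adjacent_intervals (i1.trans i2) i3,
    ← intervalIntegral.integral_add_adjacent_intervals i1 i2]
  have j1 : 0 ≤ ∫ α in (1 - η)..1, r α * ft T α :=
    intervalIntegral.integral_nonneg (by linarith) fun x _ => mul_nonneg (hrnn x) (hft x)
  have j3 : 0 ≤ ∫ α in (3 : ℝ)..(4 + 1 / 8), r α * ft T α :=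
    intervalIntegral.integral_nonneg (by norm_num) fun x _ => mul_nonneg (hrnn x) (hft x)
  have j2 : 1 / 4 * ∫ α in (1 : ℝ)..3, ft T α ≤ ∫ α in (1 : ℝ)..3, r α * ft T α := by
    rw [← intervalIntegral.integral_const_mul]
    refine intervalIntegral.integral_mono_on (by norm_num)
      ((low_ft_ii hT (by norm_num)).const_mul (1 / 4)) i2 fun α hα => ?_
    exact mul_le_mul_of_nonneg_right (hrge α hα.1 hα.2) (hft α)
  linarith

end FTBaux

open FTBaux in
theorem ftb (hE : S_EFL) (hA : S_APP) : S_FTB := by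
  intro RH
  obtain ⟨w, hw, hw0, hs, hpd, happ⟩ := hA 4 (1 / 8) (by norm_num) (by norm_num) (by norm_num)
  obtain ⟨χ, hχ, hχ1, hχ0, hχle⟩ := exists_chi (lam := 1 - (1 / 4 : ℝ))
    (kap := 1 - (1 / 4 : ℝ) / 2) (by norm_num) (by norm_num)
  obtain ⟨K, hK, hKb⟩ := RP_bdd RH hw
  have hsp := split_up RH hE hw (η := 1 / 4) (by norm_num) le_rfl hχ hχ1 one_pos
  refine ⟨4 * (K + |Lam (fun x => w x * χ x)| + 1), by positivity, ?_⟩
  filter_upwards [hKb, hsp, eventually_ge_atTop (1 : ℝ)] with T h1 h2 hT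
  have h3 := lower hw hw0 hs happ (η := 1 / 4) (by norm_num) le_rfl hχ hχ1 hχle hT
  have h4 := neg_abs_le (Lam (fun x => w x * χ x))
  linarith

end H479.A
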