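import Pool.Agent.H479.A.Stm

/-!
# Subtask H479-A-FW: from the windows of Montgomery's function to smooth test functions
-/

open MeasureTheory Filter Topology

namespace H479.A

open H479.P H479.V H479.W
open Pool.Agent.Y744
open Pool.Agent.N804 (SC CT)
open Pool.Agent.N804.PV (DT GV ph aT)
open H177.Lat (kI yy del)
open SG (ord NZ)

namespace FWx

/-- integration by parts -/
lemma parts {w F : ℝ → ℝ} (hw : Differentiable ℝ w) (hw' : Continuous (deriv w)) (hF : Continuous F)
    (b : ℝ) : ∫ α in (1 : ℝ)..b, w α * F α =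
      w b * (∫ α in (1 : ℝ)..b, F α) -
        ∫ t in (1 : ℝ)..b, deriv w t * ∫ α in (1 : ℝ)..t, F α := by
  have h := intervalIntegral.integral_mul_deriv_eq_deriv_mul (a := 1) (b := b) (u := w)
    (v := fun t => ∫ α in (1 : ℝ)..t, F α) (u' := deriv w) (v' := F)
    (fun x _ => (hw x).hasDerivAt) (fun x _ => (hF.integral_hasStrictDerivAt 1 x).hasDerivAt)
    (hw'.intervalIntegrable _ _) (hF.intervalIntegrable _ _)
  rw [h]
  simp

/-- from the windows to smooth functions on `[1, b]` -/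
lemma smooth_win (hF : FWin) {w : ℝ → ℝ} (hw : Differentiable ℝ w) (hw' : Continuous (deriv w))
    {b : ℝ} (hb1 : 1 < b) (hb : b < 2) :
    Tendsto (fun T => ∫ α in (1 : ℝ)..b, w α * Fr T α) atTop
      (𝓝 (∫ α in (1 : ℝ)..b, w α * (2 - α))) := by
  have h0c : Continuous fun α : ℝ => 2 - α := by fun_prop
  rw [parts hw hw' h0c b]
  have e : ∀ T, ∫ α in (1 : ℝ)..b, w α * Fr T α = w b * (∫ α in (1 : ℝ)..b, Fr T α) -
      ∫ t in (1 : ℝ)..b, deriv w t * ∫ α in (1 : ℝ)..t, Fr T α := fun T =>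
    parts hw hw' (Fr_cont T) b
  simp only [e]
  have hlim := hF 1 b le_rfl hb1 hb
  refine (hlim.const_mul (w b)).sub ?_
  have hcont : ∀ T, Continuous fun t : ℝ => ∫ α in (1 : ℝ)..t, Fr T α := fun T =>
    intervalIntegral.continuous_primitive (fun x y => (Fr_cont T).intervalIntegrable x y) 1
  refine intervalIntegral.tendsto_integral_filter_of_dominated_convergence
    (fun x => |deriv w x| * ((∫ α in (1 : ℝ)..b, (2 - α)) + 1)) ?_ ?_ ?_ ?_
  · exact Eventually.of_forall fun T => (hw'.mul (hcont T)).aestronglyMeasurable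
  · have h1 : ∀ᶠ T in atTop, ∫ α in (1 : ℝ)..b, Fr T α < (∫ α in (1 : ℝ)..b, (2 - α)) + 1 :=
      hlim.eventually_lt_const (lt_add_one _)
    filter_upwards [h1, eventually_ge_atTop (1 : ℝ)] with T hT hT1
    refine Eventually.of_forall fun x hx => ?_
    rw [Set.uIoc_of_le hb1.le] at hx
    have h2 : 0 ≤ ∫ α in (1 : ℝ)..x, Fr T α :=
      intervalIntegral.integral_nonneg hx.1.le fun α _ => Fr_nonneg hT1 α
    have h3 : 0 ≤ ∫ α in x..b, Fr T α :=
      intervalIntegral.integral_nonneg hx.2 fun α _ => Fr_nonneg hT1 α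
    have h4 : (∫ α in (1 : ℝ)..x, Fr T α) + (∫ α in x..b, Fr T α) = ∫ α in (1 : ℝ)..b, Fr T α :=
      intervalIntegral.integral_add_adjacent_intervals ((Fr_cont T).intervalIntegrable _ _)
        ((Fr_cont T).intervalIntegrable _ _)
    rw [norm_mul, Real.norm_eq_abs, Real.norm_eq_abs, abs_of_nonneg h2]
    exact mul_le_mul_of_nonneg_left (by linarith) (abs_nonneg _)
  · apply Continuous.intervalIntegrable
    exact hw'.abs.mul continuous_const
  · refine Eventually.of_forall fun x hx => ?_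
    rw [Set.uIoc_of_le hb1.le] at hx
    exact (hF 1 x le_rfl hx.1 (lt_of_le_of_lt hx.2 hb)).const_mul _

end FWx

theorem fw : S_FW := by
  intro RH hMON hF w κ hw hκ hs
  obtain ⟨b, hb1, hb2, hκb⟩ : ∃ b : ℝ, 1 < b ∧ b < 2 ∧ κ ≤ b :=
    ⟨max κ (3 / 2), lt_of_lt_of_le (by norm_num) (le_max_right _ _), max_lt hκ (by norm_num),
      le_max_left _ _⟩
  have hb0 : (0 : ℝ) ≤ b := by linarith
  have hwc : Continuous w := hw.sc.sm.continuous
  have hwd : Differentiable ℝ w := hw.sc.sm.differentiable (by simp)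
  have hwd' : Continuous (deriv w) := hw.sc.sm.continuous_deriv (by simp)
  have hsb : ∀ x, b < |x| → w x = 0 := fun x hx => hs x (lt_of_le_of_lt hκb hx)
  have hsplit : ∀ g : ℝ → ℝ, Continuous g →
      ∫ x in (0 : ℝ)..b, g x = (∫ x in (0 : ℝ)..1, g x) + ∫ x in (1 : ℝ)..b, g x := fun g hg =>
    (intervalIntegral.integral_add_adjacent_intervals (hg.intervalIntegrable _ _)
      (hg.intervalIntegrable _ _)).symm
  have e1 : ∀ T, ∫ α, w α * Fr T α =
      2 * ((∫ x in (0 : ℝ)..1, w x * Fr T x) + ∫ x in (1 : ℝ)..b, w x * Fr T x) := by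
    intro T
    rw [← hsplit (fun x => w x * Fr T x) (hwc.mul (Fr_cont T))]
    exact int_even (g := fun x => w x * Fr T x) (hwc.mul (Fr_cont T))
      (fun x => by rw [hw.even, Fr_neg]) hb0
      fun x hx => by rw [hsb x hx, zero_mul]
  have hgc : Continuous fun α : ℝ => w α * min |α| (2 - |α|) :=
    hwc.mul (continuous_abs.min (continuous_const.sub continuous_abs))
  have e2 : LamA w = 2 * ((w 0 / 2 + ∫ α in (0 : ℝ)..1, w α * α) +
      ∫ α in (1 : ℝ)..b, w α * (2 - α)) := by
    have h1 : ∫ α in (-2 : ℝ)..2, w α * min |α| (2 - |α|) = ∫ α, w α * min |α| (2 - |α|) := by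
      rw [intervalIntegral.integral_of_le (by norm_num), ← integral_Icc_eq_integral_Ioc]
      refine setIntegral_eq_integral_of_forall_compl_eq_zero fun x hx => ?_
      rw [hsb x, zero_mul]
      by_contra hc
      push Not at hc
      have h3 := abs_le.1 (hc.trans hb2.le)
      exact hx ⟨h3.1, h3.2⟩
    have h2 : ∫ α, w α * min |α| (2 - |α|) = 2 * ∫ x in (0 : ℝ)..b, w x * min |x| (2 - |x|) :=
      int_even hgc (fun x => by rw [hw.even, abs_neg]) hb0 fun x hx => by rw [hsb x hx, zero_mul]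
    have h3 : ∫ x in (0 : ℝ)..1, w x * min |x| (2 - |x|) = ∫ x in (0 : ℝ)..1, w x * x := by
      apply intervalIntegral.integral_congr
      intro x hx
      rw [Set.uIcc_of_le zero_le_one] at hx
      simp only
      rw [abs_of_nonneg hx.1, min_eq_left (by linarith [hx.2])]
    have h4 : ∫ x in (1 : ℝ)..b, w x * min |x| (2 - |x|) = ∫ x in (1 : ℝ)..b, w x * (2 - x) := by
      apply intervalIntegral.integral_congr
      intro x hx
      rw [Set.uIcc_of_le hb1.le] at hx
      simp only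
      rw [abs_of_nonneg (by linarith [hx.1]), min_eq_right (by linarith [hx.1])]
    rw [LamA, h1, h2, hsplit _ hgc, h3, h4]
    ring
  simp only [e1]
  rw [e2]
  exact ((hMON RH w hwc).add (FWx.smooth_win hF hwd hwd' hb1 hb2)).const_mul 2

end H479.A
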