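import Pool.Agent.H479.A.Stm

/-!
# Subtask H479-A-GR (proved by helper389): from the windows of the variance to the weighted mean

PROOF: `RR T = (1/2) ∫_1^2 (2-α) ft T α dα = (1/2) ∫_1^2 S_T(t) dt`, `S_T(t) = ∫_1^t ft T` (integration by parts, `low_parts` in V/Low.lean with `b = 2`; integrability `low_ft_on`, `low_ft_ii`, `T ≥ 1`). For `1 ≤ t < 2` `S_T(t) → ∫_1^t (2-α)` (GWin with a = 1; t = 1 trivial) and
`0 ≤ S_T(t) ≤ ∫_1^3 ft ≤ C` eventually (FTB, `low_ft_nonneg`). Dominated convergence (`intervalIntegral.tendsto_integral_filter_of_dominated_convergence`) gives `RR → (1/2) ∫_1^2 ∫_1^t (2-α) dα dt = (1/2) ∫_1^2 (1/2 - (2-t)²/2) dt = (1/2)(1/2 - 1/6) = 1/6`.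
(`S_T` is continuous in `t`: `intervalIntegral.continuousOn_primitive_interval`.)
-/

open MeasureTheory Filter Topology

namespace H479.A

open H479.P H479.V H479.W
open Pool.Agent.Y744
open Pool.Agent.N804 (SC CT)
open Pool.Agent.N804.PV (DT GV ph aT)
open H177.Lat (kI yy del)
open SG (ord NZ)

theorem gr : S_GR := by
  intro hRH hFTB hG
  obtain ⟨C, hC0, hC⟩ := hFTB hRH
  have hlim : Tendsto (fun T => ∫ t in (1 : ℝ)..2, (∫ α in (1 : ℝ)..t, ft T α)) atTop
      (𝓝 (∫ t in (1 : ℝ)..2, (∫ α in (1 : ℝ)..t, (2 - α)))) := by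
    refine intervalIntegral.tendsto_integral_filter_of_dominated_convergence (fun _ => C)
      ?_ ?_ ?_ ?_
    · filter_upwards [eventually_ge_atTop 1] with T hT
      have hprim : ContinuousOn (fun t => ∫ α in (1 : ℝ)..t, ft T α) (Set.uIcc 1 2) := by
        apply intervalIntegral.continuousOn_primitive_interval
        rw [Set.uIcc_of_le one_le_two]
        exact low_ft_on hT 1 2
      exact hprim.intervalIntegrable.def'.aestronglyMeasurable
    · filter_upwards [hC, eventually_ge_atTop 1] with T hTC hT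
      refine Eventually.of_forall fun t ht => ?_
      rw [Set.uIoc_of_le one_le_two] at ht
      have h1 : 0 ≤ ∫ α in (1 : ℝ)..t, ft T α :=
        intervalIntegral.integral_nonneg ht.1.le (fun α _ => low_ft_nonneg hT α)
      rw [Real.norm_eq_abs, abs_of_nonneg h1]
      have h2 : (∫ α in (1 : ℝ)..t, ft T α) + ∫ α in t..3, ft T α =
          ∫ α in (1 : ℝ)..3, ft T α :=
        intervalIntegral.integral_add_adjacent_intervals (low_ft_ii hT ht.1.le)
          (low_ft_ii hT (by linarith [ht.2]))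
      have h3 : 0 ≤ ∫ α in t..3, ft T α :=
        intervalIntegral.integral_nonneg (by linarith [ht.2]) (fun α _ => low_ft_nonneg hT α)
      linarith
    · exact intervalIntegrable_const
    · have h2 : ∀ᵐ x : ℝ, x ≠ 2 := Measure.ae_ne volume 2
      filter_upwards [h2] with t ht2 ht
      rw [Set.uIoc_of_le one_le_two] at ht
      exact hG 1 t le_rfl ht.1 (lt_of_le_of_ne ht.2 ht2)
  have hval : (∫ t in (1 : ℝ)..2, (∫ α in (1 : ℝ)..t, (2 - α))) = 1 / 3 := by
    have e : ∀ t : ℝ, (∫ α in (1 : ℝ)..t, (2 - α)) = 2 * t - t ^ 2 / 2 - 3 / 2 := by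
      intro t
      rw [intervalIntegral.integral_sub (by simp) (by simp)]
      simp
      ring
    simp_rw [e]
    rw [intervalIntegral.integral_eq_sub_of_hasDerivAt
      (f := fun t : ℝ => t ^ 2 - t ^ 3 / 6 - 3 / 2 * t)]
    · norm_num
    · intro t _
      have h1 := ((hasDerivAt_pow 2 t).sub ((hasDerivAt_pow 3 t).div_const 6)).sub
        ((hasDerivAt_id t).const_mul (3 / 2))
      refine h1.congr_deriv ?_
      push_cast
      ring
    · exact (by fun_prop : Continuous fun t : ℝ => 2 * t - t ^ 2 / 2 - 3 / 2).intervalIntegrable _ _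
  rw [hval] at hlim
  have h4 := hlim.const_mul (1 / 2)
  rw [show (1 / 2 * (1 / 3) : ℝ) = 1 / 6 by norm_num] at h4
  refine h4.congr' ?_
  filter_upwards [eventually_ge_atTop 1] with T hT
  have hion : IntegrableOn (ft T) (Set.Ioc 1 2) :=
    (low_ft_on hT 1 2).mono_set Set.Ioc_subset_Icc_self
  rw [← low_parts one_le_two hion, ← intervalIntegral.integral_const_mul]
  unfold RR
  apply intervalIntegral.integral_congr
  intro α _
  simp only
  ring

end H479.A
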