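import Pool.Agent.H479.A.Stm
import Pool.Agent.H479.V.Gvf

/-! # from one-sided windows of the variance to the weighted mean, and the form in `x` -/

open MeasureTheory Filter Topology

namespace H479.A

open H479.P H479.V H479.W
open Pool.Agent.Y744
open Pool.Agent.N804 (SC CT)
open Pool.Agent.N804.PV (DT GV ph aT)
open H177.Lat (kI yy del)
open SG (ord NZ)

theorem gr1 (RH : RiemannHypothesis) (hFTB : S_FTB)
    (hG : ∀ a b : ℝ, 1 ≤ a → a < b → b < 2 → ∀ ε : ℝ, 0 < ε →
      ∀ᶠ T in atTop, ∫ α in a..b, ft T α ≤ (∫ α in a..b, (2 - α)) + ε) :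
    ∀ ε : ℝ, 0 < ε → ∀ᶠ T in atTop, RR T ≤ 1 / 6 + ε := by
  obtain ⟨C, hC0, hC⟩ := hFTB RH
  have e : ∀ t : ℝ, (∫ α in (1 : ℝ)..t, (2 - α)) = 2 * t - t ^ 2 / 2 - 3 / 2 := by
    intro t
    rw [intervalIntegral.integral_sub (by simp) (by simp)]
    simp
    ring
  have es : (fun t : ℝ => ∫ α in (1 : ℝ)..t, (2 - α)) = fun t => 2 * t - t ^ 2 / 2 - 3 / 2 :=
    funext e
  have hsc : Continuous fun t : ℝ => ∫ α in (1 : ℝ)..t, (2 - α) := by
    rw [es]
    fun_prop
  have hprim : ∀ T : ℝ, 1 ≤ T →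
      ContinuousOn (fun t => ∫ α in (1 : ℝ)..t, ft T α) (Set.uIcc 1 2) := by
    intro T hT
    apply intervalIntegral.continuousOn_primitive_interval
    rw [Set.uIcc_of_le one_le_two]
    exact low_ft_on hT 1 2
  have hlim : Tendsto (fun T => ∫ t in (1 : ℝ)..2,
      max ((∫ α in (1 : ℝ)..t, ft T α) - (∫ α in (1 : ℝ)..t, (2 - α))) 0) atTop
      (𝓝 (∫ _t in (1 : ℝ)..2, (0 : ℝ))) := by
    refine intervalIntegral.tendsto_integral_filter_of_dominated_convergence (fun _ => C)
      ?_ ?_ ?_ ?_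
    · filter_upwards [eventually_ge_atTop 1] with T hT
      have h1 : ContinuousOn (fun t => max ((∫ α in (1 : ℝ)..t, ft T α) -
          (∫ α in (1 : ℝ)..t, (2 - α))) 0) (Set.uIcc 1 2) :=
        ((hprim T hT).sub hsc.continuousOn).sup continuousOn_const
      exact h1.intervalIntegrable.def'.aestronglyMeasurable
    · filter_upwards [hC, eventually_ge_atTop 1] with T hTC hT
      refine Eventually.of_forall fun t ht => ?_
      rw [Set.uIoc_of_le one_le_two] at ht
      have h2 : (∫ α in (1 : ℝ)..t, ft T α) + ∫ α in t..3, ft T α =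
          ∫ α in (1 : ℝ)..3, ft T α :=
        intervalIntegral.integral_add_adjacent_intervals (low_ft_ii hT ht.1.le)
          (low_ft_ii hT (by linarith [ht.2]))
      have h3 : 0 ≤ ∫ α in t..3, ft T α :=
        intervalIntegral.integral_nonneg (by linarith [ht.2]) (fun α _ => low_ft_nonneg hT α)
      have h4 : 0 ≤ ∫ α in (1 : ℝ)..t, (2 - α) := by
        rw [e]
        nlinarith [ht.1, ht.2]
      rw [Real.norm_eq_abs, abs_of_nonneg (le_max_right _ _)]
      refine max_le ?_ hC0.le
      linarith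
    · exact intervalIntegrable_const
    · have h2 : ∀ᵐ x : ℝ, x ≠ 2 := Measure.ae_ne volume 2
      filter_upwards [h2] with t ht2 ht
      rw [Set.uIoc_of_le one_le_two] at ht
      rw [Metric.tendsto_nhds]
      intro ε hε
      filter_upwards [hG 1 t le_rfl ht.1 (lt_of_le_of_ne ht.2 ht2) (ε / 2) (by linarith)]
        with T hT
      rw [Real.dist_eq, sub_zero, abs_of_nonneg (le_max_right _ _)]
      exact max_lt (by linarith) hε
  have hval : (∫ t in (1 : ℝ)..2, (∫ α in (1 : ℝ)..t, (2 - α))) = 1 / 3 := by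
    simp_rw [e]
    rw [intervalIntegral.integral_eq_sub_of_hasDerivAt
      (f := fun t : ℝ => t ^ 2 - t ^ 3 / 6 - 3 / 2 * t)]
    · norm_num
    · intro t _
      have h1 := ((hasDerivAt_pow 2 t).sub ((hasDerivAt_pow 3 t).div_const 6)).sub
        ((hasDerivAt_id t).const_mul (3 / 2))
      refine h1.congr_deriv ?_
      push_cast
      ring
    · exact (by fun_prop : Continuous fun t : ℝ => 2 * t - t ^ 2 / 2 - 3 / 2).intervalIntegrable _ _
  rw [intervalIntegral.integral_zero] at hlim
  intro ε hε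
  filter_upwards [hlim.eventually_lt_const (show (0 : ℝ) < 2 * ε by linarith),
    eventually_ge_atTop 1] with T h1 hT
  have hion : IntegrableOn (ft T) (Set.Ioc 1 2) :=
    (low_ft_on hT 1 2).mono_set Set.Ioc_subset_Icc_self
  have h5 : RR T = 1 / 2 * ∫ t in (1 : ℝ)..2, (∫ α in (1 : ℝ)..t, ft T α) := by
    rw [← low_parts one_le_two hion, ← intervalIntegral.integral_const_mul]
    unfold RR
    apply intervalIntegral.integral_congr
    intro α _
    simp only
    ring
  have i1 : IntervalIntegrable (fun t => ∫ α in (1 : ℝ)..t, ft T α) volume 1 2 :=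
    (hprim T hT).intervalIntegrable
  have i2 : IntervalIntegrable (fun t : ℝ => ∫ α in (1 : ℝ)..t, (2 - α)) volume 1 2 :=
    hsc.intervalIntegrable _ _
  have i3 : IntervalIntegrable (fun t => max ((∫ α in (1 : ℝ)..t, ft T α) -
      (∫ α in (1 : ℝ)..t, (2 - α))) 0) volume 1 2 :=
    (((hprim T hT).sub hsc.continuousOn).sup continuousOn_const).intervalIntegrable
  have h6 : (∫ t in (1 : ℝ)..2, (∫ α in (1 : ℝ)..t, ft T α)) - 1 / 3 ≤
      ∫ t in (1 : ℝ)..2, max ((∫ α in (1 : ℝ)..t, ft T α) - (∫ α in (1 : ℝ)..t, (2 - α))) 0 := by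
    rw [← hval, ← intervalIntegral.integral_sub i1 i2]
    exact intervalIntegral.integral_mono_on one_le_two (i1.sub i2) i3 fun t _ => le_max_left _ _
  rw [h5]
  linarith

/-- the weighted mean in terms of `x` -/
theorem RR_x {T : ℝ} (hT : 1 < T) : RR T = T / Real.log T ^ 2 *
    ∫ x in T..(T ^ 2), (1 - Real.log x / (2 * Real.log T)) *
      ((Chebyshev.psi (x + x / T) - Chebyshev.psi x - x / T) ^ 2 / x ^ 2) := by
  have hT0 : 0 < T := by linarith
  have hL : 0 < Real.log T := Real.log_pos hT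
  have e1 : T = Real.exp (1 * Real.log T) := by rw [one_mul, Real.exp_log hT0]
  have e2 : T ^ 2 = Real.exp (2 * Real.log T) := by
    rw [show (2 : ℝ) * Real.log T = Real.log T + Real.log T by ring, Real.exp_add,
      Real.exp_log hT0]
    ring
  have e0 : ∫ x in T..(T ^ 2), (1 - Real.log x / (2 * Real.log T)) *
      ((Chebyshev.psi (x + x / T) - Chebyshev.psi x - x / T) ^ 2 / x ^ 2) =
      ∫ y in (1 * Real.log T)..(2 * Real.log T), (1 - y / (2 * Real.log T)) * DT T y ^ 2 := by
    have h1 := subst_exp (a := 1 * Real.log T) (b := 2 * Real.log T) (by linarith)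
      (fun x => (1 - Real.log x / (2 * Real.log T)) *
        ((Chebyshev.psi (x + x / T) - Chebyshev.psi x - x / T) ^ 2 / x ^ 2))
    rw [← e1, ← e2] at h1
    rw [h1]
    congr 1
    funext y
    unfold DT
    rw [mul_pow, show Real.exp y + Real.exp y / T = Real.exp y * (1 + 1 / T) by ring, Real.log_exp]
    have h1 : Real.exp (-(y / 2)) ^ 2 = (Real.exp y)⁻¹ := by
      rw [← Real.exp_nat_mul, ← Real.exp_neg]
      congr 1
      push_cast
      ring
    rw [h1]
    have := Real.exp_pos y
    field_simp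
  rw [e0]
  have e3 := intervalIntegral.integral_comp_mul_right (a := 1) (b := 2)
    (fun y : ℝ => (1 - y / (2 * Real.log T)) * DT T y ^ 2) hL.ne'
  rw [smul_eq_mul] at e3
  have e4 : RR T = T / Real.log T * ∫ x in (1 : ℝ)..2,
      (1 - x * Real.log T / (2 * Real.log T)) * DT T (x * Real.log T) ^ 2 := by
    unfold RR ft
    rw [← intervalIntegral.integral_const_mul]
    congr 1
    funext x
    have : x * Real.log T / (2 * Real.log T) = x / 2 := by field_simp
    rw [this]
    ring
  rw [e4, e3]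
  field_simp

end H479.A
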