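import Pool.Agent.H479.A.Stm

/-!
# Subtask H479-A-GW (helper4 for helper479): from smooth test functions to the windows of the variance
-/

open MeasureTheory Filter Topology

namespace H479.A

open H479.P H479.V H479.W
open Pool.Agent.Y744
open Pool.Agent.N804 (SC CT)
open Pool.Agent.N804.PV (DT GV ph aT)
open H177.Lat (kI yy del)
open SG (ord NZ)

namespace GWx

open H479.V.CNV

theorem int_lin (s t : ℝ) : ∫ α in s..t, (2 - α) = 2 * (t - s) - (t ^ 2 - s ^ 2) / 2 := by
  rw [intervalIntegral.integral_sub (by simp) (by simp), integral_id,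
    intervalIntegral.integral_const, smul_eq_mul]
  ring

theorem cg : Continuous fun α : ℝ => min |α| (2 - |α|) := by fun_prop

theorem Lam_evn' {w : ℝ → ℝ} (hw : SC w) (h0 : w 0 = 0) {κ : ℝ} (hκ : κ < 2)
    (hs : ∀ x, κ < |x| → evn w x = 0) :
    LamA (evn w) = ∫ α, w α * min |α| (2 - |α|) := by
  unfold LamA
  have e1 : ∫ α in (-2 : ℝ)..2, evn w α * min |α| (2 - |α|) =
      ∫ α, evn w α * min |α| (2 - |α|) := by
    rw [intervalIntegral.integral_of_le (by norm_num)]
    apply setIntegral_eq_integral_of_forall_compl_eq_zero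
    intro x hx
    by_cases hx2 : x = -2
    · rw [hs x, zero_mul]
      rw [hx2, abs_neg, abs_of_pos (by norm_num)]
      exact hκ
    · rw [hs x, zero_mul]
      by_contra hc
      rw [not_lt] at hc
      have h1 := abs_le.1 hc
      apply hx
      constructor
      · rcases lt_or_eq_of_le h1.1 with h2 | h2
        · linarith
        · linarith
      · linarith [h1.2]
  rw [e1, int_evn hw (g := fun α => min |α| (2 - |α|)) cg (fun x => by rw [abs_neg])]
  unfold evn
  simp [h0]

theorem lim_w' (RH : RiemannHypothesis) (hE : S_EFL)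
    (h : ∀ (w : ℝ → ℝ) (κ : ℝ), EW w → κ < 2 → (∀ x, κ < |x| → w x = 0) →
      Tendsto (RP w) atTop (𝓝 (LamA w))) {w : ℝ → ℝ} (hw : SC w) {κ : ℝ} (hκ : κ < 2)
    (h0 : ∀ x, x < 1 / 2 → w x = 0) (h2 : ∀ x, κ < x → w x = 0) :
    Tendsto (fun T => ∫ α, w α * ft T α) atTop (𝓝 (∫ α, w α * min |α| (2 - |α|))) := by
  have hs : ∀ x, κ < |x| → evn w x = 0 := by
    intro x hx
    unfold evn
    rcases le_or_gt 0 x with h3 | h3
    · rw [abs_of_nonneg h3] at hx
      rw [h2 x hx, h0 (-x) (by linarith)]
      norm_num
    · rw [abs_of_neg h3] at hx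
      rw [h2 (-x) hx, h0 x (by linarith)]
      norm_num
  have h1 := h _ κ (evn_ew hw) hκ hs
  rw [RP_evn hw, Lam_evn' hw (h0 0 (by norm_num)) hκ hs] at h1
  have h2 := (hE RH w hw h0).add h1
  rw [zero_add] at h2
  refine h2.congr fun T => ?_
  ring

theorem main (RH : RiemannHypothesis) (hE : S_EFL)
    (h : ∀ (w : ℝ → ℝ) (κ : ℝ), EW w → κ < 2 → (∀ x, κ < |x| → w x = 0) →
      Tendsto (RP w) atTop (𝓝 (LamA w))) (u v : ℝ) (hu : 1 ≤ u) (huv : u < v) (hv : v < 2) :
    Tendsto (fun T => ∫ α in u..v, ft T α) atTop (𝓝 (∫ α in u..v, (2 - α))) := by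
  obtain ⟨L, hL⟩ : ∃ L : ℝ, L = ∫ α in u..v, (2 - α) := ⟨_, rfl⟩
  have hL' := hL
  rw [int_lin] at hL'
  rw [← hL, tendsto_order]
  constructor
  · intro a ha
    obtain ⟨δ, hδ⟩ : ∃ δ : ℝ, δ = min ((v - u) / 4) ((L - a) / 4) := ⟨_, rfl⟩
    have hδ0 : 0 < δ := by rw [hδ]; exact lt_min (by linarith) (by linarith)
    have hδ1 : δ ≤ (v - u) / 4 := by rw [hδ]; exact min_le_left _ _
    have hδ2 : δ ≤ (L - a) / 4 := by rw [hδ]; exact min_le_right _ _
    let f : ContDiffBump ((u + v) / 2) := ⟨(v - u) / 2 - δ, (v - u) / 2, by linarith, by linarith⟩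
    have hf : SC f := ⟨f.contDiff, f.hasCompactSupport⟩
    have hz : ∀ x, x ∉ Set.Ioo u v → f x = 0 := by
      intro x hx
      apply f.zero_of_le_dist
      show (v - u) / 2 ≤ dist x ((u + v) / 2)
      rw [Real.dist_eq]
      by_contra hc
      rw [not_le, abs_lt] at hc
      apply hx
      constructor
      · linarith [hc.1]
      · linarith [hc.2]
    have hone : ∀ x, x ∈ Set.Icc (u + δ) (v - δ) → f x = 1 := by
      intro x hx
      apply f.one_of_mem_closedBall
      show dist x ((u + v) / 2) ≤ (v - u) / 2 - δ
      rw [Real.dist_eq, abs_le]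
      constructor
      · linarith [hx.1]
      · linarith [hx.2]
    have h0 : ∀ x, x < 1 / 2 → f x = 0 := by
      intro x hx
      apply hz
      intro h
      linarith [h.1]
    have h2 : ∀ x, v < x → f x = 0 := by
      intro x hx
      apply hz
      intro h
      linarith [h.2]
    have hlim := lim_w' RH hE h hf hv h0 h2
    have hL2 : a < ∫ α, f α * min |α| (2 - |α|) := by
      have h1 : ∫ α, (Set.Icc (u + δ) (v - δ)).indicator (fun α : ℝ => 2 - α) α ≤
          ∫ α, f α * min |α| (2 - |α|) := by
        apply integral_mono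
        · rw [integrable_indicator_iff measurableSet_Icc]
          exact Continuous.integrableOn_Icc (by fun_prop)
        · apply Continuous.integrable_of_hasCompactSupport
          · exact hf.sm.continuous.mul cg
          · exact hf.cs.mul_right
        · intro α
          by_cases hα : α ∈ Set.Icc (u + δ) (v - δ)
          · show (Set.Icc (u + δ) (v - δ)).indicator (fun α : ℝ => 2 - α) α ≤
              f α * min |α| (2 - |α|)
            rw [Set.indicator_of_mem hα, hone α hα]
            have h3 : 1 ≤ α := by linarith [hα.1]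
            rw [abs_of_nonneg (by linarith), min_eq_right (by linarith), one_mul]
          · show (Set.Icc (u + δ) (v - δ)).indicator (fun α : ℝ => 2 - α) α ≤
              f α * min |α| (2 - |α|)
            rw [Set.indicator_of_notMem hα]
            have h4 := f.nonneg (x := α)
            by_cases hα2 : α ∈ Set.Ioo u v
            · have h3 : 1 ≤ α := by linarith [hα2.1]
              rw [abs_of_nonneg (by linarith)]
              refine mul_nonneg h4 (le_min (by linarith) (by linarith [hα2.2]))
            · rw [hz α hα2, zero_mul]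
      have h2 : ∫ α, (Set.Icc (u + δ) (v - δ)).indicator (fun α : ℝ => 2 - α) α =
          2 * ((v - δ) - (u + δ)) - ((v - δ) ^ 2 - (u + δ) ^ 2) / 2 := by
        rw [integral_indicator measurableSet_Icc, integral_Icc_eq_integral_Ioc,
          ← intervalIntegral.integral_of_le (by linarith), int_lin]
      rw [h2] at h1
      refine lt_of_lt_of_le ?_ h1
      have h3 : δ * (4 - u - v) ≤ δ * 2 := mul_le_mul_of_nonneg_left (by linarith) hδ0.le
      nlinarith
    filter_upwards [hlim.eventually_const_lt hL2, eventually_gt_atTop (1 : ℝ)] with T h1 hT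
    refine h1.trans_le ?_
    rw [intervalIntegral.integral_of_le huv.le, ← integral_indicator measurableSet_Ioc]
    apply integral_mono (wft_int hT hf)
    · rw [integrable_indicator_iff measurableSet_Ioc]
      exact ft_on hT _ _
    · intro α
      show f α * ft T α ≤ (Set.Ioc u v).indicator (ft T) α
      have hft := ft_nonneg hT α
      by_cases hα : α ∈ Set.Ioc u v
      · rw [Set.indicator_of_mem hα]
        have := f.le_one (x := α)
        nlinarith
      · rw [Set.indicator_of_notMem hα, hz α (fun h => hα ⟨h.1, h.2.le⟩), zero_mul]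
  · intro a ha
    obtain ⟨δ, hδ⟩ : ∃ δ : ℝ, δ = min (1 / 4) (min ((2 - v) / 2) ((a - L) / 4)) := ⟨_, rfl⟩
    have hδ0 : 0 < δ := by
      rw [hδ]
      exact lt_min (by norm_num) (lt_min (by linarith) (by linarith))
    have hδ1 : δ ≤ 1 / 4 := by rw [hδ]; exact min_le_left _ _
    have hδ2 : δ ≤ (a - L) / 4 := by
      rw [hδ]
      exact (min_le_right _ _).trans (min_le_right _ _)
    have hδ3 : δ ≤ (2 - v) / 2 := by
      rw [hδ]
      exact (min_le_right _ _).trans (min_le_left _ _)
    let f : ContDiffBump ((u + v) / 2) := ⟨(v - u) / 2, (v - u) / 2 + δ, by linarith, by linarith⟩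
    have hf : SC f := ⟨f.contDiff, f.hasCompactSupport⟩
    have hz : ∀ x, x ∉ Set.Icc (u - δ) (v + δ) → f x = 0 := by
      intro x hx
      apply f.zero_of_le_dist
      show (v - u) / 2 + δ ≤ dist x ((u + v) / 2)
      rw [Real.dist_eq]
      by_contra hc
      rw [not_le, abs_lt] at hc
      apply hx
      constructor
      · linarith [hc.1]
      · linarith [hc.2]
    have hone : ∀ x, x ∈ Set.Icc u v → f x = 1 := by
      intro x hx
      apply f.one_of_mem_closedBall
      show dist x ((u + v) / 2) ≤ (v - u) / 2
      rw [Real.dist_eq, abs_le]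
      constructor
      · linarith [hx.1]
      · linarith [hx.2]
    have h0 : ∀ x, x < 1 / 2 → f x = 0 := by
      intro x hx
      apply hz
      intro h
      linarith [h.1]
    have h2 : ∀ x, v + δ < x → f x = 0 := by
      intro x hx
      apply hz
      intro h
      linarith [h.2]
    have hlim := lim_w' RH hE h hf (κ := v + δ) (by linarith) h0 h2
    have hL2 : ∫ α, f α * min |α| (2 - |α|) < a := by
      have h1 : ∫ α, f α * min |α| (2 - |α|) ≤
          ∫ α, (Set.Icc (u - δ) (v + δ)).indicator (fun α : ℝ => 2 - α) α := by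
        apply integral_mono
        · apply Continuous.integrable_of_hasCompactSupport
          · exact hf.sm.continuous.mul cg
          · exact hf.cs.mul_right
        · rw [integrable_indicator_iff measurableSet_Icc]
          exact Continuous.integrableOn_Icc (by fun_prop)
        · intro α
          by_cases hα : α ∈ Set.Icc (u - δ) (v + δ)
          · show f α * min |α| (2 - |α|) ≤
              (Set.Icc (u - δ) (v + δ)).indicator (fun α : ℝ => 2 - α) α
            rw [Set.indicator_of_mem hα]
            have h3 := f.nonneg (x := α)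
            have h4 := f.le_one (x := α)
            have h6 : 0 ≤ α := by linarith [hα.1]
            have h7 : α ≤ 2 := by linarith [hα.2]
            rw [abs_of_nonneg h6]
            have h5 : min α (2 - α) ≤ 2 - α := min_le_right _ _
            have h8 : 0 ≤ min α (2 - α) := le_min h6 (by linarith)
            nlinarith
          · show f α * min |α| (2 - |α|) ≤
              (Set.Icc (u - δ) (v + δ)).indicator (fun α : ℝ => 2 - α) α
            rw [Set.indicator_of_notMem hα, hz α hα, zero_mul]
      have h2 : ∫ α, (Set.Icc (u - δ) (v + δ)).indicator (fun α : ℝ => 2 - α) α =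
          2 * ((v + δ) - (u - δ)) - ((v + δ) ^ 2 - (u - δ) ^ 2) / 2 := by
        rw [integral_indicator measurableSet_Icc, integral_Icc_eq_integral_Ioc,
          ← intervalIntegral.integral_of_le (by linarith), int_lin]
      rw [h2] at h1
      refine lt_of_le_of_lt h1 ?_
      have h3 : δ * (4 - u - v) ≤ δ * 2 := mul_le_mul_of_nonneg_left (by linarith) hδ0.le
      nlinarith
    filter_upwards [hlim.eventually_lt_const hL2, eventually_gt_atTop (1 : ℝ)] with T h1 hT
    refine lt_of_le_of_lt ?_ h1
    rw [intervalIntegral.integral_of_le huv.le, ← integral_indicator measurableSet_Ioc]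
    apply integral_mono _ (wft_int hT hf)
    · intro α
      show (Set.Ioc u v).indicator (ft T) α ≤ f α * ft T α
      have hft := ft_nonneg hT α
      by_cases hα : α ∈ Set.Ioc u v
      · rw [Set.indicator_of_mem hα, hone α ⟨hα.1.le, hα.2⟩, one_mul]
      · rw [Set.indicator_of_notMem hα]
        exact mul_nonneg f.nonneg hft
    · rw [integrable_indicator_iff measurableSet_Ioc]
      exact ft_on hT _ _

end GWx

theorem gw : S_GW := by
  intro RH hE h u v hu huv hv
  exact GWx.main RH hE h u v hu huv hv

end H479.A
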