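import Pool.Agent.H479.A.Stm

/-!
# Subtask H479-A-PC (proved by helper375): the number of the near pairs

PROOF: the inner sum is at most `(kI (Finset.Ioc (NZ (δT)) (NZ T)) (yy T) U n : ℝ)` (number of `n'` with `|yy n - yy n'| ≤ U`, see
`Pool/Graph/R_seed8/H177R3/LatC.lean`), `k ≤ k²`, and `H479.W.th3 : S_TH3` (`Pool/Agent/H479/W/Th3.lean`; statement in W/Stm.lean) bounds the sum of the squares by `C Xf T`. Take the hypothesis
`hT : S_TH3` as below.
-/

open MeasureTheory Filter Topology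

namespace H479.A

open H479.P H479.V H479.W
open Pool.Agent.Y744
open Pool.Agent.N804 (SC CT)
open Pool.Agent.N804.PV (DT GV ph aT)
open H177.Lat (kI yy del)
open SG (ord NZ)

theorem pc (hT : S_TH3) : S_PC := by
  intro hRH δ U hδ hδ1 hU
  obtain ⟨C, T0, hC, h⟩ := hT hRH U δ hU.le hδ hδ1
  refine ⟨C, hC, ?_⟩
  filter_upwards [eventually_ge_atTop T0] with T hTT
  refine le_trans ?_ (h T hTT)
  refine Finset.sum_le_sum fun n _ => ?_
  have h1 : ∑ n' ∈ Finset.Ioc (NZ (δ * T)) (NZ T),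
      (if n ≠ n' ∧ |yy T n - yy T n'| ≤ U then (1 : ℝ) else 0) ≤
      (kI (Finset.Ioc (NZ (δ * T)) (NZ T)) (yy T) U n : ℝ) := by
    unfold H177.Lat.kI
    rw [Finset.card_filter]
    push_cast
    refine Finset.sum_le_sum fun n' _ => ?_
    by_cases h2 : |yy T n - yy T n'| ≤ U
    · rw [if_pos h2]
      split_ifs <;> norm_num
    · rw [if_neg h2, if_neg (fun h3 => h2 h3.2)]
  refine h1.trans ?_
  have h4 : ∀ k : ℕ, (k : ℝ) ≤ (k : ℝ) ^ 2 := by
    intro k
    have h5 : k ≤ k ^ 2 := Nat.le_self_pow two_ne_zero k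
    exact_mod_cast h5
  exact h4 _

end H479.A
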