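import Pool.Agent.H479.A.Near
import Pool.Agent.H479.A.Gr1
import Pool.Agent.H479.A.Ea2
import Pool.Agent.H479.A.Pc
import Pool.Agent.H479.A.Gw
import Pool.Agent.H479.A.Gr
import Pool.Agent.H479.A.Ftb
import Pool.Agent.H479.A.Fw
import Pool.Agent.H479.V.Main
import Pool.Agent.H479.W.B
import Pool.Agent.H479.W.Lowp
import Pool.Agent.H479.W.Ca

/-! # assembly of the equivalence for the variance of the primes -/

open MeasureTheory Filter Topology

namespace H479.A

open H479.P H479.V H479.W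
open Pool.Agent.Y744
open Pool.Agent.N804 (SC CT)
open Pool.Agent.N804.PV (DT GV ph aT)
open H177.Lat (kI yy del)
open SG (ord NZ)

theorem ftb' : S_FTB := ftb efl app

/-- the lower bound for the weighted mean of the variance, on the Riemann hypothesis -/
theorem RR_lower (RH : RiemannHypothesis) {ε : ℝ} (hε : 0 < ε) :
    ∀ᶠ T in atTop, 1 / 6 - ε ≤ RR T := by
  obtain ⟨C3, hC3, hftb⟩ := ftb' RH
  obtain ⟨C, hC, hnear⟩ := low_near
  obtain ⟨e, hedef⟩ : ∃ e : ℝ, e = min (1 / 8) (ε / (6 + C3 + 2 * C)) := ⟨_, rfl⟩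
  have hD : 0 < 6 + C3 + 2 * C := by positivity
  have he0 : 0 < e := by rw [hedef]; exact lt_min (by norm_num) (by positivity)
  have he8 : e ≤ 1 / 8 := by rw [hedef]; exact min_le_left _ _
  have heE : e * (6 + C3 + 2 * C) ≤ ε := by
    rw [← le_div_iff₀ hD, hedef]
    exact min_le_right _ _
  obtain ⟨w, hw, hw0, hs, hpd, happ⟩ := app 2 e (by norm_num) he0 (by linarith)
  obtain ⟨χ, hχ, hχ1, hχ0, hχle⟩ := exists_chi (lam := 1 - e) (kap := 1 - e / 2)
    (by linarith) (by linarith)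
  have hsp := low_split RH efl hw he0 (by linarith) hχ hχ1 he0
  have hdiag : ∀ᶠ T in atTop, 1 - e < Dph T := by
    have h1 : Tendsto Dph atTop (𝓝 1) := diag
    exact h1.eventually_const_lt (by linarith)
  filter_upwards [hsp, hdiag, hftb, hnear e he0 (by linarith),
    eventually_ge_atTop (2 : ℝ)] with T h1 h2 h4 h6 hT
  have hT1 : 1 ≤ T := by linarith
  have hL : 0 < Real.log T := Real.log_pos (by linarith)
  have h7 := low_upper hw hw0 (by norm_num) he0 (by linarith) hs happ he0 (by linarith) hχ hχ1 hχ0 hT1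
  have h8 := low_mass hw hw0 (by norm_num) he0 hs happ
  have h9 := low_lam hw hw0 (by norm_num) happ (show 1 - e / 2 < 1 by linarith) hχ hχle
  have h10 := zs RH hpd (show (0 : ℝ) < 1 / 2 by norm_num) (by norm_num) hT (by linarith)
  have e1 : CT w 0 = ∫ x, w x := by
    unfold CT
    simp
  have e2 : (∑ s ∈ Zt (T ^ 2), ∑ s' ∈ Zt (T ^ 2), mz s * mz s' *
        (2 / (T * Real.log T) * (ph (max s.im s'.im / T) *
          CT w ((s.im - s'.im) * Real.log T / (2 * Real.pi))))) = RP w T := rfl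
  rw [e2] at h10
  have e3 : (∫ α in (1 : ℝ)..2, (1 - α / 2) * ft T α) = RR T := rfl
  rw [e3] at h7
  have h11 : ∫ α in (1 : ℝ)..(2 + e), ft T α ≤ C3 := by
    refine le_trans ?_ h4
    rw [← intervalIntegral.integral_add_adjacent_intervals (a := 1) (b := 2 + e) (c := 3)
      (low_ft_ii hT1 (by linarith)) (low_ft_ii hT1 (by linarith))]
    have := intervalIntegral.integral_nonneg (μ := volume) (show 2 + e ≤ 3 by linarith)
      fun x _ => low_ft_nonneg hT1 x
    linarith
  have h12 : 0 ≤ ∑ n ∈ Finset.Ioc (NZ (1 / 2 * T)) (NZ T),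
      ∑ n' ∈ Finset.Ioc (NZ (1 / 2 * T)) (NZ T),
        (if n = n' then 0 else CT w (yy T n - yy T n')) := by
    refine Finset.sum_nonneg fun n _ => Finset.sum_nonneg fun n' _ => ?_
    split_ifs
    · exact le_rfl
    · exact hpd _
  have h12' := mul_nonneg (show 0 ≤ 1 / (T * Real.log T) by positivity) h12
  have h13 : (2 - 4 * e) * (1 - e) ≤ CT w 0 * Dph T := by
    have h14 : 2 - 4 * e ≤ CT w 0 := by rw [e1]; linarith
    exact mul_le_mul h14 h2.le (by linarith) (by linarith)
  have h16 : 2 * e * (∫ α in (1 : ℝ)..(2 + e), ft T α) ≤ 2 * e * C3 :=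
    mul_le_mul_of_nonneg_left h11 (by linarith)
  have h17 : 0 ≤ e * e := by positivity
  nlinarith

/-- the upper bound implies the alternative hypothesis for almost all spacings -/
theorem AHd_of_RR (RH : RiemannHypothesis)
    (h : ∀ ε : ℝ, 0 < ε → ∀ᶠ T in atTop, RR T ≤ 1 / 6 + ε) : AHd :=
  ea2 RH (near RH efl app ftb' (pc th3) h)

theorem QP_of_int (RH : RiemannHypothesis) {w : ℝ → ℝ} (hw : EW w) {ℓ : ℝ}
    (h : Tendsto (fun T => ∫ α, w α * Fr T α) atTop (𝓝 ℓ)) : Tendsto (QP w) atTop (𝓝 ℓ) := by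
  obtain ⟨κ, h0, hR⟩ := hw.ce
  obtain ⟨C, T0, hC, hT0, herr⟩ := F_err RH
  obtain ⟨D, hD0, hD⟩ := ew_decay hw
  have hct : CT w = ct w := funext (CT_ct w)
  have h1 : Tendsto (fun T => (∫ α, w α * Fr T α) - QP w T) atTop (𝓝 0) := by
    have h2 : Tendsto (fun T => D * (C / (Real.log T) ^ 2)) atTop (𝓝 (D * 0)) := by
      apply Tendsto.const_mul
      apply Tendsto.div_atTop tendsto_const_nhds
      exact (tendsto_pow_atTop (by norm_num)).comp Real.tendsto_log_atTop
    rw [mul_zero] at h2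
    refine squeeze_zero_norm' ?_ h2
    filter_upwards [eventually_ge_atTop T0] with T hT
    have h5 := herr T hT κ w D hR hD0 (fun x => by rw [← CT_ct]; exact hD x)
    rw [Real.norm_eq_abs]
    unfold QP
    rw [hct]
    exact h5
  have h2 := h.sub h1
  rw [sub_zero] at h2
  refine h2.congr fun T => ?_
  ring

theorem FWin_of_AHd (RH : RiemannHypothesis) (h : AHd) : FWin := by
  have hEE : Tendsto EE atTop (𝓝 0) := H479.W.ae RH H479.W.th3 H479.W.cmb H479.W.lowp H479.W.bad h
  have hJ := H479.W.JJ_of_EE RH H479.W.idn hEE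
  intro a b ha hab hb
  exact H479.W.dw RH H479.W.mon H479.W.per hEE hJ a b ha hab hb

theorem GWin_of_AHd (RH : RiemannHypothesis) (h : AHd) : GWin := by
  refine gw RH efl fun w κ hw hκ hs => ?_
  exact ab RH w _ hw (QP_of_int RH hw (fw RH H479.W.mon (FWin_of_AHd RH h) w κ hw hκ hs))

end H479.A
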