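import Pool.Agent.H479.A.Zs
import Pool.Agent.H479.W.Idn

/-! # the bound for the variance implies that there are few near pairs -/

open MeasureTheory Filter Topology

namespace H479.A

open H479.P H479.V H479.W
open Pool.Agent.Y744
open Pool.Agent.N804 (SC CT)
open Pool.Agent.N804.PV (DT GV ph aT)
open H177.Lat (kI yy del tri tri_cont tri_even tri_zero tri_in)
open SG (ord NZ)

lemma ct_low {w : ℝ → ℝ} (hw : EW w) {δ : ℝ} (hδ : 0 < δ) (hδ1 : δ ≤ 1)
    (hs : ∀ x, 2 + δ < |x| → w x = 0)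
    (happ : ∀ x, |w x - max 0 (1 - |x| / 2)| ≤ δ) (x : ℝ) :
    2 * Real.sinc (2 * Real.pi * x) ^ 2 - 6 * δ ≤ CT w x := by
  have htri : ∀ α, tri 2 α = max 0 (1 - |α| / 2) := by
    intro α
    rcases le_or_gt |α| 2 with h | h
    · rw [tri_in two_pos h, max_eq_right]
      linarith
    · rw [H479.W.H921ID.CE_tri.supp α h, max_eq_left]
      linarith
  have hcw : Integrable (fun α => w α * Real.cos (2 * Real.pi * α * x)) := by
    apply Continuous.integrable_of_hasCompactSupport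
    · exact hw.sc.sm.continuous.mul (by fun_prop)
    · exact hw.sc.cs.mul_right
  have hct : Integrable (fun α => tri 2 α * Real.cos (2 * Real.pi * α * x)) := by
    apply Continuous.integrable_of_hasCompactSupport
    · exact (tri_cont 2).mul (by fun_prop)
    · apply HasCompactSupport.mul_right
      refine HasCompactSupport.intro (isCompact_Icc (a := -2) (b := 2)) fun α hα => ?_
      apply H479.W.H921ID.CE_tri.supp
      by_contra hc
      push Not at hc
      exact hα (abs_le.1 hc)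
  have e1 : CT w x - 2 * Real.sinc (2 * Real.pi * x) ^ 2 =
      ∫ α, (w α - tri 2 α) * Real.cos (2 * Real.pi * α * x) := by
    have e2 : (∫ α, tri 2 α * Real.cos (2 * Real.pi * α * x)) =
        2 * Real.sinc (2 * Real.pi * x) ^ 2 := by
      rw [← H479.W.H921ID.ct_tri]
      unfold ct
      congr 1
      funext α
      congr 2
      ring
    rw [← e2]
    unfold CT
    rw [← integral_sub hcw hct]
    congr 1
    funext α
    ring
  have h1 : ‖∫ α, (w α - tri 2 α) * Real.cos (2 * Real.pi * α * x)‖ ≤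
      ∫ α, (Set.Icc (-(2 + δ)) (2 + δ)).indicator (fun _ => δ) α := by
    apply norm_integral_le_of_norm_le
    · rw [integrable_indicator_iff measurableSet_Icc]
      exact integrableOn_const (by simp)
    · refine Eventually.of_forall fun α => ?_
      by_cases hα : α ∈ Set.Icc (-(2 + δ)) (2 + δ)
      · rw [Set.indicator_of_mem hα, norm_mul, Real.norm_eq_abs, Real.norm_eq_abs, htri]
        have h2 := happ α
        have h3 := Real.abs_cos_le_one (2 * Real.pi * α * x)
        calc _ ≤ δ * 1 := mul_le_mul h2 h3 (abs_nonneg _) hδ.le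
          _ = δ := mul_one δ
      · rw [Set.indicator_of_notMem hα]
        have h2 : 2 + δ < |α| := by
          by_contra hc
          push Not at hc
          exact hα (abs_le.1 hc)
        rw [hs α h2, H479.W.H921ID.CE_tri.supp α (by linarith), sub_zero, zero_mul, norm_zero]
  have h2 : ∫ α, (Set.Icc (-(2 + δ)) (2 + δ)).indicator (fun _ => δ) α ≤ 6 * δ := by
    rw [integral_indicator measurableSet_Icc, setIntegral_const, Real.volume_real_Icc_of_le
      (by linarith), smul_eq_mul]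
    nlinarith
  rw [← e1, Real.norm_eq_abs] at h1
  have h3 := (abs_le.1 (h1.trans h2)).1
  linarith

theorem near (RH : RiemannHypothesis) (hE : S_EFL) (hA : S_APP) (hF : S_FTB) (hP : S_PC)
    (h : ∀ ε : ℝ, 0 < ε → ∀ᶠ T in atTop, RR T ≤ 1 / 6 + ε) : NEAR := by
  intro δ U E hδ hδ1 hU hEE
  obtain ⟨CU, hCU, hpc⟩ := hP RH δ U hδ hδ1 hU
  obtain ⟨C3, hC3, hftb⟩ := hF RH
  obtain ⟨C, hC, hnear⟩ := low_near
  have hπ := Real.pi_pos
  have hπ4 := Real.pi_le_four
  obtain ⟨e, hedef⟩ : ∃ e : ℝ, e = min (1 / 8) (E / (4 * (12 + 2 * C3 + 4 * C) + 3 * CU)) :=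
    ⟨_, rfl⟩
  have hD : 0 < 4 * (12 + 2 * C3 + 4 * C) + 3 * CU := by positivity
  have he0 : 0 < e := by rw [hedef]; exact lt_min (by norm_num) (by positivity)
  have he8 : e ≤ 1 / 8 := by rw [hedef]; exact min_le_left _ _
  have heE : e * (4 * (12 + 2 * C3 + 4 * C) + 3 * CU) ≤ E := by
    rw [← le_div_iff₀ hD, hedef]
    exact min_le_right _ _
  obtain ⟨w, hw, hw0, hs, hpd, happ⟩ := hA 2 e (by norm_num) he0 (by linarith)
  obtain ⟨χ, hχ, hχ1, hχ0, hχle⟩ := exists_chi (lam := 1 - e) (kap := 1 - e / 2)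
    (by linarith) (by linarith)
  have hsp := low_split RH hE hw he0 (by linarith) hχ hχ1 he0
  have hdiag : ∀ᶠ T in atTop, 1 - e < Dph T := by
    have h1 : Tendsto Dph atTop (𝓝 1) := diag
    exact h1.eventually_const_lt (by linarith)
  filter_upwards [hsp, hdiag, hpc, hftb, h e he0, hnear e he0 (by linarith),
    eventually_ge_atTop (2 : ℝ), eventually_ge_atTop (1 / δ)] with T h1 h2 h3 h4 h5 h6 hT hT2
  have hT1 : 1 ≤ T := by linarith
  have hL : 0 < Real.log T := Real.log_pos (by linarith)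
  have hX : 0 < Xf T := Xf_pos (by linarith)
  have h7 := low_upper hw hw0 (by norm_num) he0 (by linarith) hs happ he0 (by linarith) hχ hχ1 hχ0 hT1
  have h8 := low_mass hw hw0 (by norm_num) he0 hs happ
  have h9 := low_lam hw hw0 (by norm_num) happ (show 1 - e / 2 < 1 by linarith) hχ hχle
  have h10 := zs RH hpd hδ hδ1 hT hT2
  have e1 : CT w 0 = ∫ x, w x := by
    unfold CT
    simp
  have e2 : (∑ s ∈ Zt (T ^ 2), ∑ s' ∈ Zt (T ^ 2), mz s * mz s' *
        (2 / (T * Real.log T) * (ph (max s.im s'.im / T) *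
          CT w ((s.im - s'.im) * Real.log T / (2 * Real.pi))))) = RP w T := rfl
  rw [e2] at h10
  have e3 : (∫ α in (1 : ℝ)..2, (1 - α / 2) * ft T α) = RR T := rfl
  rw [e3] at h7
  have h11 : ∫ α in (1 : ℝ)..(2 + e), ft T α ≤ C3 := by
    refine le_trans ?_ h4
    rw [← intervalIntegral.integral_add_adjacent_intervals (a := 1) (b := 2 + e) (c := 3)
      (low_ft_ii hT1 (by linarith)) (low_ft_ii hT1 (by linarith))]
    have := intervalIntegral.integral_nonneg (μ := volume) (show 2 + e ≤ 3 by linarith)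
      fun x _ => low_ft_nonneg hT1 x
    linarith
  -- the near pairs
  obtain ⟨S, hS⟩ : ∃ S : ℝ, S = ∑ n ∈ Finset.Ioc (NZ (δ * T)) (NZ T),
    ∑ n' ∈ Finset.Ioc (NZ (δ * T)) (NZ T),
    (if n ≠ n' ∧ |yy T n - yy T n'| ≤ U then Real.sinc (2 * Real.pi * (yy T n - yy T n')) ^ 2
      else 0) := ⟨_, rfl⟩
  obtain ⟨P, hPd⟩ : ∃ P : ℝ, P = ∑ n ∈ Finset.Ioc (NZ (δ * T)) (NZ T),
    ∑ n' ∈ Finset.Ioc (NZ (δ * T)) (NZ T),
    (if n ≠ n' ∧ |yy T n - yy T n'| ≤ U then (1 : ℝ) else 0) := ⟨_, rfl⟩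
  obtain ⟨Q, hQ⟩ : ∃ Q : ℝ, Q = ∑ n ∈ Finset.Ioc (NZ (δ * T)) (NZ T),
    ∑ n' ∈ Finset.Ioc (NZ (δ * T)) (NZ T),
        (if n = n' then 0 else CT w (yy T n - yy T n')) := ⟨_, rfl⟩
  rw [← hS]
  rw [← hPd] at h3
  rw [← hQ] at h10
  have h12 : 2 * S - 6 * e * P ≤ Q := by
    rw [hS, hPd, hQ, Finset.mul_sum, Finset.mul_sum, ← Finset.sum_sub_distrib]
    refine Finset.sum_le_sum fun n _ => ?_
    rw [Finset.mul_sum, Finset.mul_sum, ← Finset.sum_sub_distrib]
    refine Finset.sum_le_sum fun n' _ => ?_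
    by_cases hnn : n = n'
    · rw [if_neg (fun hh => hh.1 hnn), if_neg (fun hh => hh.1 hnn), if_pos hnn]
      linarith
    · rw [if_neg hnn]
      by_cases hu : |yy T n - yy T n'| ≤ U
      · rw [if_pos ⟨hnn, hu⟩, if_pos ⟨hnn, hu⟩]
        have := ct_low hw he0 (by linarith) hs happ (yy T n - yy T n')
        linarith
      · rw [if_neg (fun hh => hu hh.2), if_neg (fun hh => hu hh.2)]
        have := hpd (yy T n - yy T n')
        linarith
  have h13 : (2 - 4 * e) * (1 - e) ≤ CT w 0 * Dph T := by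
    have h14 : 2 - 4 * e ≤ CT w 0 := by rw [e1]; linarith
    exact mul_le_mul h14 h2.le (by linarith) (by linarith)
  have h15 : 1 / (T * Real.log T) * Q ≤ (12 + 2 * C3 + 4 * C) * e := by
    have h16 : 2 * e * (∫ α in (1 : ℝ)..(2 + e), ft T α) ≤ 2 * e * C3 :=
      mul_le_mul_of_nonneg_left h11 (by linarith)
    have h17 : 0 ≤ e * e := by positivity
    nlinarith
  have hXeq : T * Real.log T = 2 * Real.pi * Xf T := by
    unfold Xf
    field_simp
  have hTL : 0 < T * Real.log T := by positivity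
  have h18 : Q ≤ (12 + 2 * C3 + 4 * C) * e * (2 * Real.pi * Xf T) := by
    rw [one_div, inv_mul_le_iff₀ hTL, hXeq] at h15
    linarith
  have h19 : 6 * e * P ≤ 6 * e * (CU * Xf T) := mul_le_mul_of_nonneg_left h3 (by linarith)
  have h20 : S ≤ (12 + 2 * C3 + 4 * C) * e * (Real.pi * Xf T) + 3 * e * (CU * Xf T) := by
    linarith
  have h21 : (12 + 2 * C3 + 4 * C) * e * (Real.pi * Xf T) ≤
      (12 + 2 * C3 + 4 * C) * e * (4 * Xf T) := by
    apply mul_le_mul_of_nonneg_left _ (by positivity)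
    exact mul_le_mul_of_nonneg_right hπ4 hX.le
  have h22 := mul_le_mul_of_nonneg_right heE hX.le
  linarith

end H479.A
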