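import Pool.Agent.H479.A.Asm

/-! # the bound for the variance at one scale bounds the near pairs and the bad spacings -/

open MeasureTheory Filter Topology

namespace H479.A

open H479.P H479.V H479.W
open Pool.Agent.Y744
open Pool.Agent.N804 (SC CT)
open Pool.Agent.N804.PV (DT GV ph aT)
open H177.Lat (kI yy del tri tri_cont tri_even tri_zero tri_in)
open SG (ord NZ)

theorem near_pt (RH : RiemannHypothesis) (hE : S_EFL) (hA : S_APP) (hF : S_FTB) (hP : S_PC)
    {δ U E : ℝ} (hδ : 0 < δ) (hδ1 : δ < 1) (hU : 0 < U) (hEE : 0 < E) : ∃ e : ℝ, 0 < e ∧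
    ∀ᶠ T in atTop, RR T ≤ 1 / 6 + e →
      ∑ n ∈ Finset.Ioc (NZ (δ * T)) (NZ T), ∑ n' ∈ Finset.Ioc (NZ (δ * T)) (NZ T),
        (if n ≠ n' ∧ |yy T n - yy T n'| ≤ U then Real.sinc (2 * Real.pi * (yy T n - yy T n')) ^ 2
          else 0) ≤ E * Xf T := by
  obtain ⟨CU, hCU, hpc⟩ := hP RH δ U hδ hδ1 hU
  obtain ⟨C3, hC3, hftb⟩ := hF RH
  obtain ⟨C, hC, hnear⟩ := low_near
  have hπ := Real.pi_pos
  have hπ4 := Real.pi_le_four
  obtain ⟨e, hedef⟩ : ∃ e : ℝ, e = min (1 / 8) (E / (4 * (12 + 2 * C3 + 4 * C) + 3 * CU)) :=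
    ⟨_, rfl⟩
  have hD : 0 < 4 * (12 + 2 * C3 + 4 * C) + 3 * CU := by positivity
  have he0 : 0 < e := by rw [hedef]; exact lt_min (by norm_num) (by positivity)
  have he8 : e ≤ 1 / 8 := by rw [hedef]; exact min_le_left _ _
  have heE : e * (4 * (12 + 2 * C3 + 4 * C) + 3 * CU) ≤ E := by
    rw [← le_div_iff₀ hD, hedef]
    exact min_le_right _ _
  obtain ⟨w, hw, hw0, hs, hpd, happ⟩ := hA 2 e (by norm_num) he0 (by linarith)
  obtain ⟨χ, hχ, hχ1, hχ0, hχle⟩ := exists_chi (lam := 1 - e) (kap := 1 - e / 2)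
    (by linarith) (by linarith)
  have hsp := low_split RH hE hw he0 (by linarith) hχ hχ1 he0
  have hdiag : ∀ᶠ T in atTop, 1 - e < Dph T := by
    have h1 : Tendsto Dph atTop (𝓝 1) := diag
    exact h1.eventually_const_lt (by linarith)
  refine ⟨e, he0, ?_⟩
  filter_upwards [hsp, hdiag, hpc, hftb, hnear e he0 (by linarith),
    eventually_ge_atTop (2 : ℝ), eventually_ge_atTop (1 / δ)] with T h1 h2 h3 h4 h6 hT hT2 h5
  have hT1 : 1 ≤ T := by linarith
  have hL : 0 < Real.log T := Real.log_pos (by linarith)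
  have hX : 0 < Xf T := Xf_pos (by linarith)
  have h7 := low_upper hw hw0 (by norm_num) he0 (by linarith) hs happ he0 (by linarith) hχ hχ1 hχ0 hT1
  have h8 := low_mass hw hw0 (by norm_num) he0 hs happ
  have h9 := low_lam hw hw0 (by norm_num) happ (show 1 - e / 2 < 1 by linarith) hχ hχle
  have h10 := zs RH hpd hδ hδ1 hT hT2
  have e1 : CT w 0 = ∫ x, w x := by
    unfold CT
    simp
  have e2 : (∑ s ∈ Zt (T ^ 2), ∑ s' ∈ Zt (T ^ 2), mz s * mz s' *
        (2 / (T * Real.log T) * (ph (max s.im s'.im / T) *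
          CT w ((s.im - s'.im) * Real.log T / (2 * Real.pi))))) = RP w T := rfl
  rw [e2] at h10
  have e3 : (∫ α in (1 : ℝ)..2, (1 - α / 2) * ft T α) = RR T := rfl
  rw [e3] at h7
  have h11 : ∫ α in (1 : ℝ)..(2 + e), ft T α ≤ C3 := by
    refine le_trans ?_ h4
    rw [← intervalIntegral.integral_add_adjacent_intervals (a := 1) (b := 2 + e) (c := 3)
      (low_ft_ii hT1 (by linarith)) (low_ft_ii hT1 (by linarith))]
    have := intervalIntegral.integral_nonneg (μ := volume) (show 2 + e ≤ 3 by linarith)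
      fun x _ => low_ft_nonneg hT1 x
    linarith
  -- the near pairs
  obtain ⟨S, hS⟩ : ∃ S : ℝ, S = ∑ n ∈ Finset.Ioc (NZ (δ * T)) (NZ T),
    ∑ n' ∈ Finset.Ioc (NZ (δ * T)) (NZ T),
    (if n ≠ n' ∧ |yy T n - yy T n'| ≤ U then Real.sinc (2 * Real.pi * (yy T n - yy T n')) ^ 2
      else 0) := ⟨_, rfl⟩
  obtain ⟨P, hPd⟩ : ∃ P : ℝ, P = ∑ n ∈ Finset.Ioc (NZ (δ * T)) (NZ T),
    ∑ n' ∈ Finset.Ioc (NZ (δ * T)) (NZ T),
    (if n ≠ n' ∧ |yy T n - yy T n'| ≤ U then (1 : ℝ) else 0) := ⟨_, rfl⟩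
  obtain ⟨Q, hQ⟩ : ∃ Q : ℝ, Q = ∑ n ∈ Finset.Ioc (NZ (δ * T)) (NZ T),
    ∑ n' ∈ Finset.Ioc (NZ (δ * T)) (NZ T),
        (if n = n' then 0 else CT w (yy T n - yy T n')) := ⟨_, rfl⟩
  rw [← hS]
  rw [← hPd] at h3
  rw [← hQ] at h10
  have h12 : 2 * S - 6 * e * P ≤ Q := by
    rw [hS, hPd, hQ, Finset.mul_sum, Finset.mul_sum, ← Finset.sum_sub_distrib]
    refine Finset.sum_le_sum fun n _ => ?_
    rw [Finset.mul_sum, Finset.mul_sum, ← Finset.sum_sub_distrib]
    refine Finset.sum_le_sum fun n' _ => ?_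
    by_cases hnn : n = n'
    · rw [if_neg (fun hh => hh.1 hnn), if_neg (fun hh => hh.1 hnn), if_pos hnn]
      linarith
    · rw [if_neg hnn]
      by_cases hu : |yy T n - yy T n'| ≤ U
      · rw [if_pos ⟨hnn, hu⟩, if_pos ⟨hnn, hu⟩]
        have := ct_low hw he0 (by linarith) hs happ (yy T n - yy T n')
        linarith
      · rw [if_neg (fun hh => hu hh.2), if_neg (fun hh => hu hh.2)]
        have := hpd (yy T n - yy T n')
        linarith
  have h13 : (2 - 4 * e) * (1 - e) ≤ CT w 0 * Dph T := by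
    have h14 : 2 - 4 * e ≤ CT w 0 := by rw [e1]; linarith
    exact mul_le_mul h14 h2.le (by linarith) (by linarith)
  have h15 : 1 / (T * Real.log T) * Q ≤ (12 + 2 * C3 + 4 * C) * e := by
    have h16 : 2 * e * (∫ α in (1 : ℝ)..(2 + e), ft T α) ≤ 2 * e * C3 :=
      mul_le_mul_of_nonneg_left h11 (by linarith)
    have h17 : 0 ≤ e * e := by positivity
    nlinarith
  have hXeq : T * Real.log T = 2 * Real.pi * Xf T := by
    unfold Xf
    field_simp
  have hTL : 0 < T * Real.log T := by positivity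
  have h18 : Q ≤ (12 + 2 * C3 + 4 * C) * e * (2 * Real.pi * Xf T) := by
    rw [one_div, inv_mul_le_iff₀ hTL, hXeq] at h15
    linarith
  have h19 : 6 * e * P ≤ 6 * e * (CU * Xf T) := mul_le_mul_of_nonneg_left h3 (by linarith)
  have h20 : S ≤ (12 + 2 * C3 + 4 * C) * e * (Real.pi * Xf T) + 3 * e * (CU * Xf T) := by
    linarith
  have h21 : (12 + 2 * C3 + 4 * C) * e * (Real.pi * Xf T) ≤
      (12 + 2 * C3 + 4 * C) * e * (4 * Xf T) := by
    apply mul_le_mul_of_nonneg_left _ (by positivity)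
    exact mul_le_mul_of_nonneg_right hπ4 hX.le
  have h22 := mul_le_mul_of_nonneg_right heE hX.le
  linarith

open EA2x in
/-- the bad spacings up to the height `T` are few if the weighted mean at `T` is near `1/6` -/
theorem bad_pt (RH : RiemannHypothesis) {ε η : ℝ} (hε : 0 < ε) (hη : 0 < η) : ∃ e : ℝ, 0 < e ∧
    ∀ᶠ T in atTop, RR T ≤ 1 / 6 + e → 0 < (NZ T : ℝ) ∧
      ({j : ℕ | 1 ≤ j ∧ j ≤ NZ T ∧ ∀ k : ℕ, 1 ≤ k → ε ≤ |del j - k / 2|}.ncard : ℝ) ≤
        η * NZ T := by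
  have hpi := Real.pi_pos
  -- parameters
  set δ : ℝ := min (1 / 2) (η / 80) with hδd
  have hδ0 : 0 < δ := by positivity
  have hδ1 : δ < 1 := by
    have : δ ≤ 1 / 2 := min_le_left _ _
    linarith
  have hδη : δ ≤ η / 80 := min_le_right _ _
  set U : ℝ := 80 / η with hUd
  have hU : 0 < U := by positivity
  obtain ⟨c, hc, hsinc⟩ := sinc_low (ε / 2) U (by positivity)
  obtain ⟨T0, hT0, hNN⟩ := Pool.Agent.W54.TCF.NT_asymp' (1 / 2) (by norm_num)
  have evL : Tendsto Real.log atTop atTop := Real.tendsto_log_atTop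
  obtain ⟨e, he, e7⟩ := near_pt RH efl app ftb' (pc th3) hδ0 hδ1 hU
    (show 0 < 2 * (c * η / 80) by positivity)
  refine ⟨e, he, ?_⟩
  have e1 : ∀ᶠ T : ℝ in atTop, U * (1 - Real.log δ) ≤ ε / 2 * Real.log T :=
    (evL.const_mul_atTop (by positivity : 0 < ε / 2)).eventually_ge_atTop _
  have e3 : ∀ᶠ T : ℝ in atTop, T0 ≤ δ * T :=
    (tendsto_id.const_mul_atTop hδ0).eventually_ge_atTop _
  have e4 : ∀ᶠ T : ℝ in atTop, T0 + 10 ≤ T := eventually_ge_atTop _
  have e5 : ∀ᶠ T : ℝ in atTop, 80 / η ≤ Xf T := by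
    filter_upwards [eventually_ge_atTop (1 : ℝ), eventually_ge_atTop (2 * Real.pi * (80 / η)),
      evL.eventually_ge_atTop 1] with T f1 f2 f3
    unfold Xf
    rw [le_div_iff₀ (by positivity)]
    have f4 : T * 1 ≤ T * Real.log T := mul_le_mul_of_nonneg_left f3 (by linarith)
    linarith
  filter_upwards [e1, e3, e4, e5, e7] with T f1 f3 f4 f5 f7' hRR
  have f7 := f7' hRR
  have hT1 : 1 < T := by linarith
  have hTpos : 0 < T := by linarith
  have hLpos : 0 < Real.log T := Real.log_pos hT1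
  have hX : 0 < Xf T := by unfold Xf; positivity
  have hlow : (NZ (δ * T) : ℝ) ≤ 2 * δ * Xf T := by
    have h1 := (hNN (δ * T) f3).2
    rw [← NZ_NN] at h1
    have h2 : Real.log (δ * T) ≤ Real.log T :=
      Real.log_le_log (by positivity) (by nlinarith)
    have h3 : (1 + 1 / 2) * (δ * T / (2 * Real.pi) * Real.log (δ * T)) ≤
        (1 + 1 / 2) * (δ * T / (2 * Real.pi) * Real.log T) := by
      apply mul_le_mul_of_nonneg_left _ (by norm_num)
      exact mul_le_mul_of_nonneg_left h2 (by positivity)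
    have h4 : (1 + 1 / 2) * (δ * T / (2 * Real.pi) * Real.log T) = 3 / 2 * (δ * Xf T) := by
      unfold Xf
      ring
    have h5 : 0 < δ * Xf T := by positivity
    linarith
  have hNlow : Xf T ≤ 2 * NZ T := by
    have h1 := (hNN T (by linarith)).1
    rw [← NZ_NN] at h1
    have h6 : (1 - 1 / 2) * (T / (2 * Real.pi) * Real.log T) = Xf T / 2 := by
      unfold Xf
      ring
    linarith
  have hcount := count δ ε U c (c * η / 80) T hδ0 hδ1 hε hU hc hT1 hsinc f1 hlow f7 (NZ T) le_rfl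
  refine ⟨by linarith, ?_⟩
  refine le_trans hcount ?_
  have g1 : 2 * δ * Xf T ≤ η / 40 * Xf T := by
    apply mul_le_mul_of_nonneg_right _ hX.le
    linarith
  have g2 : 1 ≤ η / 80 * Xf T := by
    rw [div_le_iff₀ hη] at f5
    linarith
  have g3 : Xf T / U = η / 80 * Xf T := by
    rw [hUd]
    field_simp
  have g4 : 2 * (c * η / 80) / c * Xf T ≤ η / 40 * Xf T := by
    apply mul_le_mul_of_nonneg_right _ hX.le
    rw [div_le_iff₀ hc]
    linarith
  have g5 : η * Xf T ≤ η * (2 * NZ T) := mul_le_mul_of_nonneg_left hNlow hη.le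
  have g6 : 0 < η * Xf T := by positivity
  linarith

/-- bad spacings up to the height `T` increase the weighted mean at `T` -/
theorem RR_of_bad (RH : RiemannHypothesis) {ε p : ℝ} (hε : 0 < ε) (hp : 0 < p) : ∃ c : ℝ, 0 < c ∧
    ∀ᶠ T in atTop, p * NZ T ≤
      ({j : ℕ | 1 ≤ j ∧ j ≤ NZ T ∧ ∀ k : ℕ, 1 ≤ k → ε ≤ |del j - k / 2|}.ncard : ℝ) →
        1 / 6 + c ≤ RR T := by
  obtain ⟨c, hc, h⟩ := bad_pt RH hε (show 0 < p / 2 by positivity)
  refine ⟨c, hc, ?_⟩
  filter_upwards [h] with T h1 h2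
  by_contra hcon
  push Not at hcon
  obtain ⟨h3, h4⟩ := h1 hcon.le
  nlinarith

end H479.A
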