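import Pool.Agent.H479.V.Low
import Pool.Agent.H479.V.Cnv
import Pool.Agent.H479.V.Dg
import Pool.Agent.H479.V.Stl
import Pool.Agent.H479.W.Stm

/-!
# Project A of helper479: the alternative hypothesis and the variance of the primes: interface
-/

open MeasureTheory Filter Topology

namespace H479.A

open H479.P H479.V H479.W
open Pool.Agent.Y744
open Pool.Agent.N804 (SC CT)
open Pool.Agent.N804.PV (DT GV ph aT)
open H177.Lat (kI yy del)
open SG (ord NZ)

noncomputable section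

/-- the weighted mean of the variance over `T ≤ x ≤ T²` -/
def RR (T : ℝ) : ℝ := ∫ α in (1 : ℝ)..2, (1 - α / 2) * ft T α

/-- the functional of the alternative hypothesis -/
def LamA (w : ℝ → ℝ) : ℝ := w 0 + ∫ α in (-2 : ℝ)..2, w α * min |α| (2 - |α|)

/-- the windows of Montgomery's function on `[1, 2)` -/
def FWin : Prop := ∀ a b : ℝ, 1 ≤ a → a < b → b < 2 →
  Tendsto (fun T => ∫ α in a..b, Fr T α) atTop (𝓝 (∫ α in a..b, (2 - α)))

/-- the windows of the variance on `[1, 2)` -/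
def GWin : Prop := ∀ a b : ℝ, 1 ≤ a → a < b → b < 2 →
  Tendsto (fun T => ∫ α in a..b, ft T α) atTop (𝓝 (∫ α in a..b, (2 - α)))

/-- the near pairs -/
def NEAR : Prop := ∀ δ U E : ℝ, 0 < δ → δ < 1 → 0 < U → 0 < E → ∀ᶠ T in atTop,
  ∑ n ∈ Finset.Ioc (NZ (δ * T)) (NZ T), ∑ n' ∈ Finset.Ioc (NZ (δ * T)) (NZ T),
    (if n ≠ n' ∧ |yy T n - yy T n'| ≤ U then Real.sinc (2 * Real.pi * (yy T n - yy T n')) ^ 2
      else 0) ≤ E * Xf T

/-- EA2: few near pairs imply the alternative hypothesis for almost all spacings -/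
def S_EA2 : Prop := RiemannHypothesis → NEAR → AHd

/-- PC: the number of the near pairs -/
def S_PC : Prop := RiemannHypothesis → ∀ δ U : ℝ, 0 < δ → δ < 1 → 0 < U → ∃ C : ℝ, 0 < C ∧
  ∀ᶠ T in atTop,
    ∑ n ∈ Finset.Ioc (NZ (δ * T)) (NZ T), ∑ n' ∈ Finset.Ioc (NZ (δ * T)) (NZ T),
      (if n ≠ n' ∧ |yy T n - yy T n'| ≤ U then (1 : ℝ) else 0) ≤ C * Xf T

/-- FTB: the variance is bounded in the mean -/
def S_FTB : Prop := RiemannHypothesis → ∃ C : ℝ, 0 < C ∧ ∀ᶠ T in atTop,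
  ∫ α in (1 : ℝ)..3, ft T α ≤ C

/-- FW: from the windows to smooth test functions -/
def S_FW : Prop := RiemannHypothesis → S_MON → FWin → ∀ (w : ℝ → ℝ) (κ : ℝ), EW w → κ < 2 →
  (∀ x, κ < |x| → w x = 0) → Tendsto (fun T => ∫ α, w α * Fr T α) atTop (𝓝 (LamA w))

/-- GW: from smooth test functions to the windows of the variance -/
def S_GW : Prop := RiemannHypothesis → S_EFL →
  (∀ (w : ℝ → ℝ) (κ : ℝ), EW w → κ < 2 → (∀ x, κ < |x| → w x = 0) →
    Tendsto (RP w) atTop (𝓝 (LamA w))) → GWin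

/-- GR: from the windows to the weighted mean -/
def S_GR : Prop := RiemannHypothesis → S_FTB → GWin → Tendsto RR atTop (𝓝 (1 / 6))

end

end H479.A
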