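import Pool.Agent.H479.A.Stm

/-! # the near pairs and the pair functional with the weight `ph` -/

open MeasureTheory Filter Topology

namespace H479.A

open H479.P H479.V H479.W
open Pool.Agent.Y744
open Pool.Agent.N804 (SC CT)
open Pool.Agent.N804.PV (DT GV ph aT)
open H177.Lat (kI yy del)
open SG (ord NZ)

/-- the diagonal with the weight `ph` -/
noncomputable def Dph (T : ℝ) : ℝ :=
  ∑ s ∈ Zt (T ^ 2), ph (s.im / T) * (mz s * (2 / (T * Real.log T)))

lemma ph_nonneg' (v : ℝ) : 0 ≤ ph v := sq_nonneg _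

lemma ph_half {v : ℝ} (h0 : 0 ≤ v) (h1 : v ≤ 1) : 1 / 2 ≤ ph v := by
  unfold Pool.Agent.N804.PV.ph
  have h2 : 3 / 4 ≤ Real.sinc (v / 2) := by
    rcases h0.eq_or_lt with h | h
    · rw [← h, zero_div, Real.sinc_zero]
      norm_num
    · have hv : 0 < v / 2 := by positivity
      rw [Real.sinc_of_ne_zero hv.ne', le_div_iff₀ hv]
      have h3 := Real.sin_gt_sub_cube hv
      have h4 : (v / 2) ^ 3 ≤ (v / 2) * (1 / 4) := by
        have : (v / 2) ^ 2 ≤ 1 / 4 := by nlinarith
        calc (v / 2) ^ 3 = (v / 2) * (v / 2) ^ 2 := by ring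
          _ ≤ (v / 2) * (1 / 4) := mul_le_mul_of_nonneg_left this hv.le
      nlinarith
  nlinarith

lemma mz_sq' (s : ℂ) : mz s ≤ mz s * mz s := by
  unfold mz
  have h : H370.mult riemannZeta s ≤ H370.mult riemannZeta s * H370.mult riemannZeta s := by
    rcases Nat.eq_zero_or_pos (H370.mult riemannZeta s) with h0 | h0
    · rw [h0]
    · exact Nat.le_mul_of_pos_left _ h0
  exact_mod_cast h

/-- the zeros in `(δT, T]` -/
lemma zs (RH : RiemannHypothesis) {f : ℝ → ℝ} (hf : ∀ x, 0 ≤ f x) {δ T : ℝ} (hδ : 0 < δ)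
    (hδ1 : δ < 1) (hT : 2 ≤ T) (hT2 : 1 / δ ≤ T) :
    f 0 * Dph T + 1 / (T * Real.log T) *
      ∑ n ∈ Finset.Ioc (NZ (δ * T)) (NZ T), ∑ n' ∈ Finset.Ioc (NZ (δ * T)) (NZ T),
        (if n = n' then 0 else f (yy T n - yy T n')) ≤
      ∑ s ∈ Zt (T ^ 2), ∑ s' ∈ Zt (T ^ 2), mz s * mz s' *
        (2 / (T * Real.log T) * (ph (max s.im s'.im / T) *
          f ((s.im - s'.im) * Real.log T / (2 * Real.pi)))) := by
  classical
  have hT0 : 0 < T := by linarith
  have hL : 0 < Real.log T := Real.log_pos (by linarith)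
  have hV : 1 ≤ δ * T := by
    rw [div_le_iff₀ hδ] at hT2
    linarith
  have hVT : δ * T ≤ T := by nlinarith
  have hTT : T ≤ T ^ 2 := by nlinarith
  have hc : 0 < 2 / (T * Real.log T) := by positivity
  -- the summand
  obtain ⟨q, hq⟩ : ∃ q : ℂ → ℂ → ℝ, q = fun s s' => mz s * mz s' *
        (2 / (T * Real.log T) * (ph (max s.im s'.im / T) *
          f ((s.im - s'.im) * Real.log T / (2 * Real.pi)))) := ⟨_, rfl⟩
  obtain ⟨r, hr⟩ : ∃ r : ℂ → ℝ, r = fun s => f 0 * (ph (s.im / T) *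
    (mz s * (2 / (T * Real.log T)))) := ⟨_, rfl⟩
  have hq0 : ∀ s s', 0 ≤ q s s' := by
    intro s s'
    rw [hq]
    have h1 := mz_nonneg s
    have h2 := mz_nonneg s'
    have h3 := ph_nonneg' (max s.im s'.im / T)
    have h4 := hf ((s.im - s'.im) * Real.log T / (2 * Real.pi))
    positivity
  have hqr : ∀ s, r s ≤ q s s := by
    intro s
    rw [hq, hr]
    simp only [max_self, sub_self, zero_mul, zero_div]
    have h1 := mz_sq' s
    have h3 : 0 ≤ 2 / (T * Real.log T) * (ph (s.im / T) * f 0) :=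
      mul_nonneg hc.le (mul_nonneg (ph_nonneg' _) (hf 0))
    have h4 := mul_le_mul_of_nonneg_right h1 h3
    calc f 0 * (ph (s.im / T) * (mz s * (2 / (T * Real.log T))))
        = mz s * (2 / (T * Real.log T) * (ph (s.im / T) * f 0)) := by ring
      _ ≤ _ := h4
  have e0 : f 0 * Dph T = ∑ s ∈ Zt (T ^ 2), r s := by
    unfold Dph
    rw [Finset.mul_sum, hr]
  have e9 : ∑ s ∈ Zt (T ^ 2), ∑ s' ∈ Zt (T ^ 2), mz s * mz s' *
        (2 / (T * Real.log T) * (ph (max s.im s'.im / T) *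
          f ((s.im - s'.im) * Real.log T / (2 * Real.pi)))) =
      ∑ s ∈ Zt (T ^ 2), ∑ s' ∈ Zt (T ^ 2), q s s' := by rw [hq]
  rw [e0, e9]
  -- the zeros in `(δT, T]`
  have hZs : Zb (δ * T) T ⊆ Zt (T ^ 2) := by
    intro s hs
    apply Zt_mono hTT
    rw [Zt_split hV hVT]
    exact Finset.mem_union_right _ hs
  have h1 : ∑ s ∈ Zb (δ * T) T, ((∑ s' ∈ Zb (δ * T) T, q s s') - r s) ≤
      ∑ s ∈ Zt (T ^ 2), ((∑ s' ∈ Zt (T ^ 2), q s s') - r s) := by
    calc ∑ s ∈ Zb (δ * T) T, ((∑ s' ∈ Zb (δ * T) T, q s s') - r s)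
        ≤ ∑ s ∈ Zb (δ * T) T, ((∑ s' ∈ Zt (T ^ 2), q s s') - r s) := by
          refine Finset.sum_le_sum fun s _ => sub_le_sub_right ?_ _
          exact Finset.sum_le_sum_of_subset_of_nonneg hZs fun s' _ _ => hq0 s s'
      _ ≤ _ := by
          apply Finset.sum_le_sum_of_subset_of_nonneg hZs
          intro s hs _
          have h3 := Finset.single_le_sum (f := fun s' => q s s') (fun s' _ => hq0 s s') hs
          have h4 := hqr s
          have h5 : q s s ≤ ∑ s' ∈ Zt (T ^ 2), q s s' := h3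
          linarith
  rw [Finset.sum_sub_distrib, Finset.sum_sub_distrib] at h1
  -- `ph ≥ 1/2` there
  obtain ⟨g, hg⟩ : ∃ g : ℝ → ℝ → ℝ, g = fun x x' =>
    f ((x - x') * Real.log T / (2 * Real.pi)) := ⟨_, rfl⟩
  have hph : ∀ s ∈ Zb (δ * T) T, 0 ≤ s.im / T ∧ s.im / T ≤ 1 := by
    intro s hs
    have hs' : s ∈ Zt T := by
      rw [Zt_split hV hVT]
      exact Finset.mem_union_right _ hs
    have h3 := H479.V.im_pos hs'
    have h4 := H479.V.im_le hs'
    exact ⟨by positivity, by rw [div_le_one hT0]; exact h4⟩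
  have h2 : 1 / (T * Real.log T) * ((∑ s ∈ Zb (δ * T) T, ∑ s' ∈ Zb (δ * T) T,
      mz s * mz s' * g s.im s'.im) - ∑ s ∈ Zb (δ * T) T, mz s * f 0) ≤
      (∑ s ∈ Zb (δ * T) T, ∑ s' ∈ Zb (δ * T) T, q s s') - ∑ s ∈ Zb (δ * T) T, r s := by
    rw [← Finset.sum_sub_distrib, ← Finset.sum_sub_distrib, Finset.mul_sum]
    refine Finset.sum_le_sum fun s hs => ?_
    have hself : ∀ F : ℂ → ℝ, ∑ s' ∈ Zb (δ * T) T, F s' =
        F s + ∑ s' ∈ (Zb (δ * T) T).erase s, F s' := fun F =>
      (Finset.add_sum_erase _ F hs).symm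
    rw [hself, hself]
    have h3 : 1 / (T * Real.log T) * (mz s * mz s * g s.im s.im - mz s * f 0) ≤
        q s s - r s := by
      rw [hq, hr, hg]
      simp only [max_self, sub_self, zero_mul, zero_div]
      have h4 := mz_sq' s
      obtain ⟨h5, h6⟩ := hph s hs
      have h7 := ph_half h5 h6
      have h8 := hf 0
      have e1 : mz s * mz s * (2 / (T * Real.log T) * (ph (s.im / T) * f 0)) -
          f 0 * (ph (s.im / T) * (mz s * (2 / (T * Real.log T)))) =
          1 / (T * Real.log T) * ((mz s * mz s - mz s) * f 0) * (2 * ph (s.im / T)) := by ring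
      have e2 : 1 / (T * Real.log T) * (mz s * mz s * f 0 - mz s * f 0) =
          1 / (T * Real.log T) * ((mz s * mz s - mz s) * f 0) * 1 := by ring
      rw [e1, e2]
      apply mul_le_mul_of_nonneg_left (by linarith)
      have : 0 ≤ (mz s * mz s - mz s) * f 0 := mul_nonneg (by linarith) h8
      positivity
    have h4 : 1 / (T * Real.log T) * ∑ s' ∈ (Zb (δ * T) T).erase s, mz s * mz s' * g s.im s'.im ≤
        ∑ s' ∈ (Zb (δ * T) T).erase s, q s s' := by
      rw [Finset.mul_sum]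
      refine Finset.sum_le_sum fun s' hs' => ?_
      have hs'' := Finset.mem_of_mem_erase hs'
      obtain ⟨h5, h6⟩ := hph s hs
      obtain ⟨h7, h8⟩ := hph s' hs''
      have h9 : 1 / 2 ≤ ph (max s.im s'.im / T) := by
        apply ph_half
        · rw [← max_div_div_right hT0.le]
          exact le_max_of_le_left h5
        · rw [← max_div_div_right hT0.le]
          exact max_le h6 h8
      rw [hq, hg]
      simp only
      have h10 := hf ((s.im - s'.im) * Real.log T / (2 * Real.pi))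
      have e1 : mz s * mz s' * (2 / (T * Real.log T) * (ph (max s.im s'.im / T) *
          f ((s.im - s'.im) * Real.log T / (2 * Real.pi)))) =
          1 / (T * Real.log T) * (mz s * mz s' *
            f ((s.im - s'.im) * Real.log T / (2 * Real.pi))) * (2 * ph (max s.im s'.im / T)) := by
        ring
      rw [e1]
      have h11 : 0 ≤ 1 / (T * Real.log T) * (mz s * mz s' *
            f ((s.im - s'.im) * Real.log T / (2 * Real.pi))) := by
        have := mz_nonneg s
        have := mz_nonneg s'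
        positivity
      nlinarith
    have e3 : 1 / (T * Real.log T) * (mz s * mz s * g s.im s.im +
        ∑ s' ∈ (Zb (δ * T) T).erase s, mz s * mz s' * g s.im s'.im - mz s * f 0) =
        1 / (T * Real.log T) * (mz s * mz s * g s.im s.im - mz s * f 0) +
        1 / (T * Real.log T) * ∑ s' ∈ (Zb (δ * T) T).erase s, mz s * mz s' * g s.im s'.im := by
      ring
    rw [e3]
    linarith
  -- to the indices
  have e1 : ∑ s ∈ Zb (δ * T) T, ∑ s' ∈ Zb (δ * T) T, mz s * mz s' * g s.im s'.im =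
      ∑ n ∈ Finset.Ioc (NZ (δ * T)) (NZ T), ∑ n' ∈ Finset.Ioc (NZ (δ * T)) (NZ T),
        g (ord n) (ord n') := by
    rw [← H177.Lat.double_conv RH hV (fun x x' => g x x')]
    rfl
  have e2 : ∑ s ∈ Zb (δ * T) T, mz s * f 0 =
      ∑ n ∈ Finset.Ioc (NZ (δ * T)) (NZ T), f 0 := by
    rw [← H177.Lat.sum_conv RH hV (fun _ => f 0)]
    rfl
  have e3 : (∑ n ∈ Finset.Ioc (NZ (δ * T)) (NZ T), ∑ n' ∈ Finset.Ioc (NZ (δ * T)) (NZ T),
        g (ord n) (ord n')) - ∑ n ∈ Finset.Ioc (NZ (δ * T)) (NZ T), f 0 =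
      ∑ n ∈ Finset.Ioc (NZ (δ * T)) (NZ T), ∑ n' ∈ Finset.Ioc (NZ (δ * T)) (NZ T),
        (if n = n' then 0 else f (yy T n - yy T n')) := by
    rw [← Finset.sum_sub_distrib]
    refine Finset.sum_congr rfl fun n hn => ?_
    have e4 : f 0 = ∑ n' ∈ Finset.Ioc (NZ (δ * T)) (NZ T), (if n = n' then f 0 else 0) := by
      rw [Finset.sum_ite_eq, if_pos hn]
    rw [e4, ← Finset.sum_sub_distrib]
    refine Finset.sum_congr rfl fun n' _ => ?_
    have e5 : yy T n - yy T n' = (ord n - ord n') * Real.log T / (2 * Real.pi) := by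
      unfold yy
      ring
    by_cases hnn : n = n'
    · subst hnn
      rw [if_pos rfl, if_pos rfl, hg]
      simp only [sub_self, zero_mul, zero_div]
    · rw [if_neg hnn, if_neg hnn, sub_zero, hg, e5]
  rw [e1, e2, e3] at h2
  linarith

end H479.A
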